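import Pool.Agent.H346.AT.FreeL

set_option autoImplicit false

/-!
# The vertex group `A = (Q * ⟨b⟩) ⋊ F`
-/

namespace Pool.Agent.H346.AT

open Monoid Multiplicative

/-- the group `Q * ⟨b⟩` -/
abbrev NN : Type := Coprod Q (Multiplicative ℤ)

/-- the generator `b` -/
def nb : NN := Coprod.inr (ofAdd 1)

/-- the endomorphism fixing `Q` and sending `b` to `u⁻¹ b` -/
def alpha (u : Q) : NN →* NN :=
  Coprod.lift Coprod.inl (zpowersHom NN (Coprod.inl u⁻¹ * nb))

lemma alpha_inl (u q : Q) : alpha u (Coprod.inl q) = Coprod.inl q := rfl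

lemma alpha_nb (u : Q) : alpha u nb = Coprod.inl u⁻¹ * nb := by
  show Coprod.lift _ _ (Coprod.inr _) = _
  rw [Coprod.lift_apply_inr]
  simp

lemma NN_ext {M : Type*} [Monoid M] {f g : NN →* M} (h1 : ∀ q, f (Coprod.inl q) = g (Coprod.inl q))
    (h2 : f nb = g nb) : f = g :=
  Coprod.hom_ext (by ext1 q; exact h1 _) (MonoidHom.ext_mint h2)

lemma alpha_mul (u v : Q) : alpha (u * v) = (alpha u).comp (alpha v) := by
  apply NN_ext
  · intro q; rfl
  · rw [MonoidHom.comp_apply, alpha_nb, alpha_nb, map_mul, alpha_inl, alpha_nb, mul_inv_rev,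
      map_mul, mul_assoc]

lemma alpha_one : alpha 1 = MonoidHom.id _ := by
  apply NN_ext
  · intro q; rfl
  · rw [alpha_nb]; simp

/-- the action of `Q` -/
def aut : Q →* MulAut NN where
  toFun u := MonoidHom.toMulEquiv (alpha u) (alpha u⁻¹)
    (by rw [← alpha_mul, inv_mul_cancel, alpha_one]) (by rw [← alpha_mul, mul_inv_cancel, alpha_one])
  map_one' := by ext x; exact DFunLike.congr_fun alpha_one x
  map_mul' u v := by ext x; exact DFunLike.congr_fun (alpha_mul u v) x

lemma aut_apply (u : Q) (n : NN) : aut u n = alpha u n := rfl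

/-- the vertex group -/
abbrev AA : Type := NN ⋊[aut.comp pr] FreeGroup (Fin 4)

/-- generators -/
def ab : AA := SemidirectProduct.inl nb
def aq (q : Q) : AA := SemidirectProduct.inl (Coprod.inl q)
def ax (f : FreeGroup (Fin 4)) : AA := SemidirectProduct.inr f

lemma ax_mul (f g : FreeGroup (Fin 4)) : ax (f * g) = ax f * ax g := map_mul _ _ _
lemma ax_inv (f : FreeGroup (Fin 4)) : ax f⁻¹ = (ax f)⁻¹ := map_inv _ _
lemma aq_mul (f g : Q) : aq (f * g) = aq f * aq g := by
  simp [aq]
lemma aq_inv (f : Q) : aq f⁻¹ = (aq f)⁻¹ := by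
  simp [aq]

lemma ax_conj (f : FreeGroup (Fin 4)) (n : NN) :
    ax f * (SemidirectProduct.inl n : AA) * (ax f)⁻¹ = SemidirectProduct.inl (alpha (pr f) n) := by
  have := SemidirectProduct.inl_aut (φ := aut.comp pr) f n
  rw [← ax_inv]
  exact this.symm

lemma ax_aq (f : FreeGroup (Fin 4)) (q : Q) : ax f * aq q * (ax f)⁻¹ = aq q := ax_conj f _

lemma ax_ab (f : FreeGroup (Fin 4)) : ax f * ab * (ax f)⁻¹ = (aq (pr f))⁻¹ * ab := by
  rw [← aq_inv]
  have := ax_conj f nb
  rw [alpha_nb, map_mul] at this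
  exact this

lemma ax_comm {f : FreeGroup (Fin 4)} (hf : pr f = 1) (n : NN) :
    ax f * (SemidirectProduct.inl n : AA) = SemidirectProduct.inl n * ax f := by
  have := ax_conj f n
  rw [hf, alpha_one] at this
  exact mul_inv_eq_iff_eq_mul.1 this

/-- the relator -/
def ar : AA := ax (hrel 0)

lemma ab_ar : Commute ab ar := (ax_comm (hrel_one 0) nb).symm

/-- the edge group `⟨b, r⟩` -/
abbrev ZZ : Type := Multiplicative ℤ × Multiplicative ℤ

/-- the embedding of the edge group -/
def phA : ZZ →* AA := MonoidHom.noncommCoprod (zpowersHom AA ab) (zpowersHom AA ar)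
  (fun _ _ => (ab_ar.zpow_zpow _ _))

lemma phA_apply (z : ZZ) : phA z = ab ^ z.1.toAdd * ar ^ z.2.toAdd := rfl

lemma phA_eq (z : ZZ) : phA z = ⟨nb ^ z.1.toAdd, hrel 0 ^ z.2.toAdd⟩ := by
  rw [phA_apply, SemidirectProduct.mk_eq_inl_mul_inr, map_zpow, map_zpow]
  rfl

/-- the exponent sum of `b` -/
def ebs : NN →* Multiplicative ℤ := Coprod.lift 1 (MonoidHom.id _)

lemma ebs_nb : ebs nb = ofAdd 1 := rfl
lemma ebs_inl (q : Q) : ebs (Coprod.inl q) = 1 := rfl

section perm

variable (u : Q)

/-- the shift -/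
def shf : Equiv.Perm (Q × ℤ) := (Equiv.refl Q).prodCongr (Equiv.addRight 1)

lemma shf_zpow (n : ℤ) (x : Q × ℤ) : (shf ^ n) x = (x.1, x.2 + n) := by
  induction n with
  | zero => simp
  | succ n ih =>
    rw [zpow_add_one, Equiv.Perm.mul_apply]
    have : ∀ (n : ℕ) (x : Q × ℤ), (shf ^ (n : ℤ)) x = (x.1, x.2 + n) := by
      intro n
      induction n with
      | zero => intro x; simp
      | succ n ih =>
        intro x
        rw [Nat.cast_succ, zpow_add_one, Equiv.Perm.mul_apply, ih]
        show (x.1, x.2 + 1 + (n : ℤ)) = _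
        rw [add_assoc, add_comm (1 : ℤ)]
    rw [this]
    show (x.1, x.2 + 1 + (n : ℤ)) = _
    rw [add_assoc, add_comm (1 : ℤ)]
  | pred n ih =>
    have : ∀ (n : ℕ) (x : Q × ℤ), (shf ^ (-n : ℤ)) x = (x.1, x.2 - n) := by
      intro n
      induction n with
      | zero => intro x; simp
      | succ n ih =>
        intro x
        rw [Nat.cast_succ, neg_add, ← sub_eq_add_neg, zpow_sub_one, Equiv.Perm.mul_apply, ih]
        show (x.1, x.2 + -1 - (n : ℤ)) = _
        congr 1; ring
    have h := this (n + 1) x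
    have e : (-(n : ℤ) - 1) = -((n + 1 : ℕ) : ℤ) := by push_cast; ring
    rw [e, h]
    congr 1

open Classical in
/-- a permutation with infinite cycles sending `(1, 0)` to `(u, 0)` -/
noncomputable def bet : Equiv.Perm (Q × ℤ) :=
  Equiv.swap (1, 1) (u, 0) * shf * (Equiv.swap (1, 1) (u, 0))⁻¹

lemma bet_base (hu : u ≠ 1) : bet u (1, 0) = (u, 0) := by
  classical
  have h1 : Equiv.swap ((1 : Q), (1 : ℤ)) (u, 0) ((1 : Q), (0 : ℤ)) = (1, 0) := by
    apply Equiv.swap_apply_of_ne_of_ne
    · intro h; have := congrArg Prod.snd h; simp at this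
    · intro h; exact hu (congrArg Prod.fst h).symm
  have h2 : shf ((1 : Q), (0 : ℤ)) = (1, 1) := by
    show ((1 : Q), (0 : ℤ) + 1) = _
    simp
  unfold bet
  rw [Equiv.swap_inv, Equiv.Perm.mul_apply, Equiv.Perm.mul_apply]
  convert Equiv.swap_apply_left ((1 : Q), (1 : ℤ)) (u, 0) using 2
  rw [← h2]
  congr 1

lemma bet_free (n : ℤ) (x : Q × ℤ) (h : (bet u ^ n) x = x) : n = 0 := by
  classical
  unfold bet at h
  rw [conj_zpow, Equiv.Perm.mul_apply, Equiv.Perm.mul_apply, shf_zpow] at h
  set y := (Equiv.swap ((1 : Q), (1 : ℤ)) (u, 0))⁻¹ x with hy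
  have hx : x = (Equiv.swap ((1 : Q), (1 : ℤ)) (u, 0)) y := by rw [hy]; simp
  rw [hx] at h
  have := Equiv.injective _ h
  have := congrArg Prod.snd this
  simpa using this

/-- left multiplication -/
def lmQ : Q →* Equiv.Perm (Q × ℤ) where
  toFun q := (Equiv.mulLeft q).prodCongr (Equiv.refl ℤ)
  map_one' := by ext x <;> simp
  map_mul' a b := by ext x <;> simp [mul_assoc]

/-- the permutation representation -/
noncomputable def psi : NN →* Equiv.Perm (Q × ℤ) :=
  Coprod.lift lmQ (zpowersHom _ (bet u))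

lemma psi_nb : psi u nb = bet u := by
  unfold psi nb
  rw [Coprod.lift_apply_inr]; simp

end perm

/-- the key rigidity: `u⁻¹ b` and `b` have no conjugate powers -/
theorem conj_b (n : NN) {u : Q} (hu : u ≠ 1) {i i' : ℤ}
    (h : nb ^ i' * n = n * (Coprod.inl u⁻¹ * nb) ^ i) : i = 0 ∧ i' = 0 := by
  have h1 : i' = i := by
    have := congrArg ebs h
    rw [map_mul, map_mul, map_zpow, map_zpow, map_mul, ebs_nb, ebs_inl, one_mul, mul_comm] at this
    have := mul_left_cancel this
    rw [← ofAdd_zsmul, ← ofAdd_zsmul] at this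
    have := Multiplicative.ofAdd.injective this
    simpa using this
  subst h1
  have h2 : psi u (Coprod.inl u⁻¹ * nb) (1, 0) = (1, 0) := by
    rw [map_mul, Equiv.Perm.mul_apply, psi_nb, bet_base u hu]
    show (u⁻¹ * u, (0 : ℤ)) = _
    rw [inv_mul_cancel]
  have h3 := congrArg (fun g => psi u g (1, 0)) h
  simp only [map_mul, map_zpow, Equiv.Perm.mul_apply] at h3
  have h4 : ((psi u (Coprod.inl u⁻¹ * nb)) ^ i') (1, 0) = (1, 0) :=
    Function.IsFixedPt.perm_zpow h2 i'
  rw [map_mul] at h4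
  rw [h4, psi_nb] at h3
  have := bet_free u i' _ h3
  exact ⟨this, this⟩

/-- the elements outside `B` conjugate the edge group to something disjoint -/
theorem phA_conj (a : AA) (ha : pr a.right ≠ 1) (z z' : ZZ) (h : phA z * a = a * phA z') :
    z = 1 := by
  rw [phA_eq, phA_eq] at h
  have hr := congrArg SemidirectProduct.right h
  have hl := congrArg SemidirectProduct.left h
  rw [SemidirectProduct.mul_right, SemidirectProduct.mul_right] at hr
  rw [SemidirectProduct.mul_left, SemidirectProduct.mul_left] at hl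
  simp only at hr hl
  have e1 : z'.2.toAdd = 0 := by
    by_contra hne
    exact ha (conj_r hr.symm hne)
  rw [e1, zpow_zero, mul_one] at hr
  have e2 : z.2.toAdd = 0 := by
    have h1 : hrel 0 ^ z.2.toAdd = 1 := by simpa using hr
    by_contra hne
    have h2 := congrArg chi h1
    rw [map_zpow, chi_r, map_one, ← ofAdd_zsmul, ofAdd_eq_one] at h2
    exact hne (by simpa using h2)
  have h5 : aut.comp pr (hrel 0 ^ z.2.toAdd) = 1 := by
    rw [e2, zpow_zero, map_one]
  rw [h5] at hl
  have h6 : (aut.comp pr a.right) (nb ^ z'.1.toAdd) = (Coprod.inl (pr a.right)⁻¹ * nb) ^ z'.1.toAdd := by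
    show alpha (pr a.right) _ = _
    rw [map_zpow, alpha_nb]
  rw [h6] at hl
  obtain ⟨-, h7⟩ := conj_b a.left ha hl
  ext
  · show z.1.toAdd = 0
    exact h7
  · show z.2.toAdd = 0
    exact e2

lemma phA_injective : Function.Injective phA := by
  rw [injective_iff_map_eq_one]
  intro z hz
  rw [phA_eq] at hz
  have hr := congrArg SemidirectProduct.right hz
  have hl := congrArg SemidirectProduct.left hz
  simp only [SemidirectProduct.one_right, SemidirectProduct.one_left] at hr hl
  ext
  · show z.1.toAdd = 0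
    have := congrArg ebs hl
    rw [map_zpow, map_one ebs, ebs_nb, ← ofAdd_zsmul, ofAdd_eq_one] at this
    simpa using this
  · show z.2.toAdd = 0
    have h2 := congrArg chi hr
    rw [map_zpow, chi_r, map_one, ← ofAdd_zsmul, ofAdd_eq_one] at h2
    simpa using h2

end Pool.Agent.H346.AT
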