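import Mathlib

set_option autoImplicit false

/-!
# The Bass-Serre tree of two subgroups
-/

namespace Pool.Agent.H346.AT

open SimpleGraph

variable {G : Type*} [Group G] (C : Bool → Subgroup G)

/-- alternating products, from the factor `i` to the factor `j` -/
inductive Alt : Bool → Bool → G → Prop
  | one (i : Bool) (c : G) (h1 : c ∈ C i) (h2 : c ∉ C (!i)) : Alt i i c
  | cons (i j : Bool) (c x : G) (h1 : c ∈ C i) (h2 : c ∉ C (!i)) (h3 : Alt (!i) j x) :
      Alt i j (c * x)

variable {C}

lemma Alt.trans {i j k : Bool} {x y : G} (h : Alt C i j x) (h' : Alt C (!j) k y) :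
    Alt C i k (x * y) := by
  induction h with
  | one i c h1 h2 => exact Alt.cons i k c y h1 h2 h'
  | cons i j c x h1 h2 h3 ih => rw [mul_assoc]; exact Alt.cons i k c _ h1 h2 (ih h')

lemma Alt.inv {i j : Bool} {x : G} (h : Alt C i j x) : Alt C j i x⁻¹ := by
  induction h with
  | one i c h1 h2 => exact Alt.one i _ ((C i).inv_mem h1) (fun h => h2 (by simpa using h))
  | cons i j c x h1 h2 h3 ih =>
    rw [mul_inv_rev]
    refine ih.trans ?_
    rw [Bool.not_not]
    exact Alt.one i _ ((C i).inv_mem h1) (fun h => h2 (by simpa using h))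

lemma Alt.mul_right {i j : Bool} {x d : G} (h : Alt C i j x) (hd : d ∈ C j) (hd' : d ∈ C (!j)) :
    Alt C i j (x * d) := by
  induction h with
  | one i c h1 h2 =>
    exact Alt.one i _ ((C i).mul_mem h1 hd)
      (fun h => h2 (by simpa using (C (!i)).mul_mem h ((C (!i)).inv_mem hd')))
  | cons i j c x h1 h2 h3 ih => rw [mul_assoc]; exact Alt.cons i j c _ h1 h2 (ih hd hd')

variable (C) in
/-- alternating products are nontrivial -/
def NF : Prop := ∀ i j x, Alt C i j x → x ≠ 1

lemma Alt.not_mem (hC : NF C) {i j : Bool} {x : G} (h : Alt C i j x) : x ∉ C (!j) := by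
  intro hx
  by_cases hx' : x ∈ C j
  · have := h.mul_right (d := x⁻¹) ((C j).inv_mem hx') ((C (!j)).inv_mem hx)
    exact hC _ _ _ this (mul_inv_cancel x)
  · have : Alt C (!j) (!j) x⁻¹ := Alt.one _ _ ((C (!j)).inv_mem hx)
      (fun h => hx' (by simpa using h))
    exact hC _ _ _ (h.trans this) (mul_inv_cancel x)

lemma Alt.not_mem' (hC : NF C) {i j : Bool} {x : G} (h : Alt C i j x) : x ∉ C (!i) := by
  intro hx
  exact h.inv.not_mem hC (by simpa using hx)

variable (C) in
/-- the vertices of the Bass-Serre tree -/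
abbrev BV := Σ i : Bool, G ⧸ C i

variable (C) in
/-- vertex of a coset -/
def bv (i : Bool) (g : G) : BV C := ⟨i, (g : G ⧸ C i)⟩

lemma bv_eq {i : Bool} {g h : G} : bv C i g = bv C i h ↔ g⁻¹ * h ∈ C i := by
  unfold bv
  rw [Sigma.mk.inj_iff]
  simp only [heq_eq_eq, true_and]
  exact QuotientGroup.eq

lemma bv_fst {i j : Bool} {g h : G} (h : bv C i g = bv C j h) : i = j :=
  congrArg Sigma.fst h

lemma exists_bv (v : BV C) : ∃ i g, v = bv C i g := by
  obtain ⟨i, x⟩ := v
  obtain ⟨g, rfl⟩ := QuotientGroup.mk_surjective x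
  exact ⟨i, g, rfl⟩

lemma smul_bv (g h : G) (i : Bool) : g • bv C i h = bv C i (g * h) := rfl

variable (C) in
/-- the Bass-Serre graph -/
def bsGraph : SimpleGraph (BV C) where
  Adj u v := ∃ (i : Bool) (g : G), u = bv C i g ∧ v = bv C (!i) g
  symm := ⟨by
    rintro u v ⟨i, g, rfl, rfl⟩
    exact ⟨!i, g, rfl, by rw [Bool.not_not]⟩⟩
  loopless := ⟨by
    rintro u ⟨i, g, rfl, h⟩
    have := bv_fst h
    simp at this⟩

lemma bs_adj (i : Bool) (g : G) : (bsGraph C).Adj (bv C i g) (bv C (!i) g) := ⟨i, g, rfl, rfl⟩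

lemma adj_smul (g : G) {u v : BV C} (h : (bsGraph C).Adj u v) : (bsGraph C).Adj (g • u) (g • v) := by
  obtain ⟨i, x, rfl, rfl⟩ := h
  exact ⟨i, g * x, rfl, rfl⟩

lemma walk_alt {u v : BV C} (p : (bsGraph C).Walk u v) : p.IsPath → ∀ (i : Bool) (g' : G),
    u = bv C i g' → s(bv C (!i) g', u) ∉ p.edges →
    ∃ (j : Bool) (x : G), v = bv C (!j) (g' * x) ∧ ((x = 1 ∧ j = !i) ∨ Alt C i j x) := by
  induction p with
  | nil =>
    intro _ i g' hu _
    exact ⟨!i, 1, by rw [hu, Bool.not_not, mul_one], Or.inl ⟨rfl, rfl⟩⟩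
  | @cons u u₁ v a q ih =>
    intro hp i g' hu he
    rw [Walk.cons_isPath_iff] at hp
    obtain ⟨i', g, hu', hu₁⟩ := id a
    have hi : i' = i := bv_fst (hu'.symm.trans hu)
    subst hi
    obtain ⟨j, x, hv, hx⟩ := ih hp.1 (!i') g (by rw [hu₁]) (by
      rw [Bool.not_not, ← hu']
      exact fun h => hp.2 (Walk.fst_mem_support_of_mem_edges _ h))
    have hc : g'⁻¹ * g ∈ C i' := by
      rw [← bv_eq, ← hu, ← hu']
    have hc' : g'⁻¹ * g ∉ C (!i') := by
      rw [← bv_eq]
      intro h
      apply he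
      rw [Walk.edges_cons, h, ← hu₁]
      exact List.mem_cons.2 (Or.inl Sym2.eq_swap)
    refine ⟨j, g'⁻¹ * g * x, ?_, Or.inr ?_⟩
    · rw [hv]; congr 1; group
    · rcases hx with ⟨rfl, rfl⟩ | hx
      · rw [Bool.not_not, mul_one]; exact Alt.one _ _ hc hc'
      · exact Alt.cons _ _ _ _ hc hc' hx

theorem bs_isTree (hC : NF C) (hgen : C false ⊔ C true = ⊤) : (bsGraph C).IsTree := by
  refine ⟨?_, ?_⟩
  · have hne : Nonempty (BV C) := ⟨bv C false 1⟩
    refine { preconnected := ?_, nonempty := hne }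
    have key : ∀ g : G, ∀ i, (bsGraph C).Reachable (bv C false 1) (bv C i g) := by
      intro g
      have hg : g ∈ Subgroup.closure ((C false : Set G) ∪ (C true : Set G)) := by
        rw [Subgroup.closure_union, Subgroup.closure_eq, Subgroup.closure_eq, hgen]
        exact Subgroup.mem_top _
      have base : ∀ i, (bsGraph C).Reachable (bv C false 1) (bv C i 1) := by
        intro i
        cases i
        · exact Reachable.refl _
        · exact (bs_adj false 1).reachable
      have step : ∀ x y : G, (∀ i, (bsGraph C).Reachable (bv C false 1) (bv C i x)) →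
          (∃ j, y ∈ C j) → ∀ i, (bsGraph C).Reachable (bv C false 1) (bv C i (x * y)) := by
        rintro x y hx ⟨j, hy⟩ i
        have e : bv C j x = bv C j (x * y) := bv_eq.2 (by simpa using hy)
        by_cases hij : i = j
        · subst hij; rw [← e]; exact hx i
        · have : i = !j := by cases i <;> cases j <;> simp_all
          subst this
          exact (e ▸ hx j).trans (bs_adj j (x * y)).reachable
      induction hg using Subgroup.closure_induction_right with
      | one => exact base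
      | mul_right x hx y hy ih =>
        refine step x y ih ?_
        rcases hy with hy | hy
        · exact ⟨_, hy⟩
        · exact ⟨_, hy⟩
      | mul_inv_cancel x hx y hy ih =>
        refine step x y⁻¹ ih ?_
        rcases hy with hy | hy
        · exact ⟨false, (C false).inv_mem hy⟩
        · exact ⟨true, (C true).inv_mem hy⟩
    intro u v
    obtain ⟨i, g, rfl⟩ := exists_bv u
    obtain ⟨j, h, rfl⟩ := exists_bv v
    exact (key g i).symm.trans (key h j)
  · intro w c hc
    cases c with
    | nil => exact hc.ne_nil rfl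
    | cons a q =>
      rw [Walk.cons_isCycle_iff] at hc
      obtain ⟨i, g, hw, hu⟩ := id a
      obtain ⟨j, x, hv, hx⟩ := walk_alt q hc.1 (!i) g hu (by
        rw [Bool.not_not, ← hw]; exact hc.2)
      rw [hw] at hv
      have hij : i = !j := bv_fst hv
      have hx' : x ∈ C (!j) := by
        rw [← hij]
        have := hv
        rw [← hij, bv_eq] at this
        simpa using this
      rcases hx with ⟨rfl, hj⟩ | hx
      · rw [hj] at hij; simp at hij
      · exact hx.not_mem hC hx'

variable (C) in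
/-- the action on the Bass-Serre tree -/
def bsAct : G →* Equiv.Perm (BV C) := MulAction.toPermHom G (BV C)

lemma bsAct_bv (g h : G) (i : Bool) : bsAct C g (bv C i h) = bv C i (g * h) := rfl

lemma bs_adj_act (g : G) (u v : BV C) (h : (bsGraph C).Adj u v) :
    (bsGraph C).Adj (bsAct C g u) (bsAct C g v) := adj_smul g h

lemma bs_noinv (g : G) (u v : BV C) (h : (bsGraph C).Adj u v) :
    ¬ (bsAct C g u = v ∧ bsAct C g v = u) := by
  obtain ⟨i, x, rfl, rfl⟩ := h
  rintro ⟨h1, -⟩
  rw [bsAct_bv] at h1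
  have := bv_fst h1
  simp at this

lemma bsAct_fix {g h : G} {i : Bool} : bsAct C g (bv C i h) = bv C i h ↔ h⁻¹ * g * h ∈ C i := by
  rw [bsAct_bv, eq_comm, bv_eq, mul_assoc]

end Pool.Agent.H346.AT
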