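import Pool.Agent.H346.AT.Tree

set_option autoImplicit false

/-!
# Elliptic elements of acylindrical actions
-/

namespace Pool.Agent.H346.AT

open SimpleGraph

variable {V : Type*} {T : SimpleGraph V} {G : Type*} [Group G] (ρ : G →* Equiv.Perm V)
  (hρ : ∀ g u v, T.Adj u v → T.Adj (ρ g u) (ρ g v)) (hT : T.IsTree)
  (hinv : ∀ g u v, T.Adj u v → ¬ (ρ g u = v ∧ ρ g v = u)) (k : ℕ)
  (hac : ∀ x y, k ≤ T.dist x y → {g : G | ρ g x = x ∧ ρ g y = y}.Finite)

include hρ hT hinv hac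

/-- the normaliser of an infinite elliptic subgroup is elliptic -/
lemma fixed_of_normal (Z H : Subgroup G) (hZ : (Z : Set G).Infinite) (v₀ : V)
    (hv : ∀ z ∈ Z, ρ z v₀ = v₀) (hn : ∀ h ∈ H, ∀ z ∈ Z, h⁻¹ * z * h ∈ Z) :
    ∃ v, ∀ h ∈ H, ρ h v = v := by
  refine fixed_of_bounded ρ hρ hT hinv H v₀ k fun h hh => ?_
  by_contra hcon
  refine hZ ((hac v₀ (ρ h v₀) (by omega)).subset fun z hz => ⟨hv z hz, ?_⟩)
  have h1 := hv _ (hn h hh z hz)
  rw [map_mul, map_mul, map_inv, Equiv.Perm.mul_apply, Equiv.Perm.mul_apply,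
    Equiv.Perm.inv_eq_iff_eq] at h1
  exact h1

omit hinv hac in
lemma slide {x x' : V} {D : ℕ} {z : G} (h1 : T.dist x (ρ z x) ≤ D) (h2 : T.dist x' (ρ z x') ≤ D)
    {p : V} (hp : Bt T x p x') (h3 : D < T.dist x p) (h4 : D < T.dist p x') :
    Bt T x (ρ z p) x' ∧ T.dist x (ρ z p) + T.dist (ρ z x) x' = T.dist x p + T.dist x x' := by
  have e1 := dist_act ρ hρ hT z x p
  have e2 := dist_act ρ hρ hT z p x'
  have e3 := dist_act ρ hρ hT z x x'
  have b1 := bt_act ρ hρ hT z hp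
  have b2 : Bt T (ρ z x) (ρ z p) x' := by
    rcases bt_or hT b1 x' with c | c
    · exact c
    · unfold Bt at c
      have t := tri hT x' (ρ z p) (ρ z x')
      have := T.dist_comm (u := x') (v := ρ z p)
      omega
  have b3 : Bt T x (ρ z p) x' := by
    rcases bt_or hT b2 x with c | c
    · unfold Bt at c
      have := T.dist_comm (u := x) (v := ρ z p)
      have := T.dist_comm (u := x) (v := ρ z x)
      omega
    · exact c
  refine ⟨b3, ?_⟩
  unfold Bt at *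
  omega

/-- an element commuting with two elements whose commutator has infinite order is elliptic -/
lemma elliptic (b y z : G) (hy : Commute b y) (hz : Commute b z)
    (hinf : (Subgroup.zpowers ((z * y)⁻¹ * (y * z)) : Set G).Infinite) :
    ∃ v, ρ b v = v := by
  by_contra hne
  have hV : Nonempty V := hT.1.nonempty
  obtain ⟨x⟩ := hV
  obtain ⟨D, hD1, hD2⟩ : ∃ D, T.dist x (ρ y x) ≤ D ∧ T.dist x (ρ z x) ≤ D :=
    ⟨max (T.dist x (ρ y x)) (T.dist x (ρ z x)), le_max_left _ _, le_max_right _ _⟩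
  have hunb : ∀ N : ℕ, ∃ n : ℤ, N < T.dist x (ρ (b ^ n) x) := by
    intro N
    by_contra hcon
    push Not at hcon
    obtain ⟨v, hv⟩ := fixed_of_bounded ρ hρ hT hinv (Subgroup.zpowers b) x N (by
      rintro _ ⟨n, rfl⟩
      exact hcon n)
    exact hne ⟨v, hv b (Subgroup.mem_zpowers b)⟩
  obtain ⟨n, hn⟩ := hunb (4 * D + 4 + k)
  set x' := ρ (b ^ n) x with hx'
  have hyz : ∀ w : G, Commute b w → T.dist x (ρ w x) ≤ D → T.dist x' (ρ w x') ≤ D := by
    intro w hw h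
    have : ρ w x' = ρ (b ^ n) (ρ w x) := by
      rw [hx', ← Equiv.Perm.mul_apply, ← Equiv.Perm.mul_apply, ← map_mul, ← map_mul,
        (hw.zpow_left n).eq]
    rw [this, hx', dist_act ρ hρ hT]
    exact h
  have hy' := hyz y hy hD1
  have hz' := hyz z hz hD2
  -- all points in the middle are moved in the same way
  have ty : T.dist x x' ≤ T.dist (ρ y x) x' + D ∧ T.dist (ρ y x) x' ≤ T.dist x x' + D := by
    have t1 := tri hT x (ρ y x) x'
    have t2 := tri hT (ρ y x) x x'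
    have t3 := T.dist_comm (u := x) (v := ρ y x)
    omega
  have tz : T.dist x x' ≤ T.dist (ρ z x) x' + D ∧ T.dist (ρ z x) x' ≤ T.dist x x' + D := by
    have t1 := tri hT x (ρ z x) x'
    have t2 := tri hT (ρ z x) x x'
    have t3 := T.dist_comm (u := x) (v := ρ z x)
    omega
  have key : ∀ p, Bt T x p x' → 2 * D < T.dist x p → 2 * D < T.dist p x' →
      ρ ((z * y)⁻¹ * (y * z)) p = p := by
    intro p hp h1 h2
    obtain ⟨a1, a2⟩ := slide ρ hρ hT hD1 hy' hp (by omega) (by omega)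
    obtain ⟨b1, b2⟩ := slide ρ hρ hT hD2 hz' hp (by omega) (by omega)
    obtain ⟨c1, c2⟩ := slide ρ hρ hT hD2 hz' a1 (by omega) (by unfold Bt at *; omega)
    obtain ⟨d1, d2⟩ := slide ρ hρ hT hD1 hy' b1 (by omega) (by unfold Bt at *; omega)
    have := bt_eq hT c1 d1 (by omega)
    rw [map_mul, map_inv, Equiv.Perm.mul_apply, Equiv.Perm.inv_eq_iff_eq, map_mul, map_mul,
      Equiv.Perm.mul_apply, Equiv.Perm.mul_apply]
    exact this.symm
  obtain ⟨p, hp1, hp2⟩ := exists_pt hT x x' (2 * D + 1) (by omega)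
  obtain ⟨q, hq1, hq2⟩ := exists_pt hT x x' (T.dist x x' - (2 * D + 1)) (by omega)
  have hpq := bt_mono hT hp1 hq1 (by omega)
  have hp3 := key p hp1 (by omega) (by unfold Bt at *; omega)
  have hq3 := key q hq1 (by omega) (by unfold Bt at *; omega)
  refine hinf ((hac p q (by unfold Bt at *; omega)).subset ?_)
  rintro _ ⟨m, rfl⟩
  simp only [Set.mem_ofPred_eq, map_zpow]
  exact ⟨Function.IsFixedPt.perm_zpow hp3 m, Function.IsFixedPt.perm_zpow hq3 m⟩

omit hinv hac in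
/-- first edge fixed by `B` but not by `A` -/
lemma exists_edge (A B : Subgroup G) (p m : V) (hA : ∀ a ∈ A, ρ a p = p)
    (hBA : B ≤ A) (hB : ∀ b ∈ B, ρ b m = m) (hm : ¬ ∀ a ∈ A, ρ a m = m) :
    ∃ u v, T.Adj u v ∧ (∀ a ∈ A, ρ a u = u) ∧ (∀ b ∈ B, ρ b v = v) ∧ ¬ ∀ a ∈ A, ρ a v = v := by
  obtain ⟨u, ⟨hu1, hu2⟩, hmin⟩ := (measure (fun u => T.dist u m)).wf.has_min
    {u | Bt T p u m ∧ ∀ a ∈ A, ρ a u = u} ⟨p, bt_left p m, hA⟩
  change ∀ y' ∈ _, ¬ T.dist y' m < T.dist u m at hmin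
  have e : u ≠ m := by
    rintro rfl
    exact hm hu2
  obtain ⟨v, a, hv⟩ := exists_closer hT e
  have hv1 : Bt T p v m := by
    have t1 := tri hT p v m
    have t2 := tri hT p u v
    have t3 : T.dist u v = 1 := dist_eq_one_iff_adj.2 a
    unfold Bt at *; omega
  refine ⟨u, v, a, hu2, fun b hb => fix_bt ρ hρ hT (hA b (hBA hb)) (hB b hb) hv1, fun hcon => ?_⟩
  exact hmin v ⟨hv1, hcon⟩ (by omega)

end Pool.Agent.H346.AT
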