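import Pool.Agent.H346.AT.Tree

set_option autoImplicit false

/-!
# Vertex stabilisers of finitely generated groups acting on trees with finitely generated edge
stabilisers are finitely generated
-/

namespace Pool.Agent.H346.AT

open SimpleGraph

variable {V : Type*} {T : SimpleGraph V} {G : Type*} [Group G] (ρ : G →* Equiv.Perm V)

/-- the stabiliser of a vertex -/
def St (v : V) : Subgroup G := (MulAction.stabilizer (Equiv.Perm V) v).comap ρ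

lemma mem_St {v : V} {g : G} : g ∈ St ρ v ↔ ρ g v = v := Iff.rfl

lemma seg_finite (hT : T.IsTree) (p q : V) : {m | Bt T p m q}.Finite := by
  refine Set.Finite.of_finite_image (f := fun m => T.dist p m) ?_ ?_
  · refine (Set.finite_Iic (T.dist p q)).subset ?_
    rintro _ ⟨m, hm, rfl⟩
    have : Bt T p m q := hm
    unfold Bt at this
    simp only [Set.mem_Iic]; omega
  · intro m hm m' hm' h
    exact bt_eq hT hm hm' h

lemma dir_const (hT : T.IsTree) {v n z z' : V} (a : T.Adj v n) (h : Bt T v n z)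
    (h' : ¬ Bt T z v z') : Bt T v n z' := by
  have e : v ≠ z' := by
    rintro rfl
    exact h' (bt_right _ _)
  obtain ⟨n', a', hn'⟩ := exists_closer hT e
  have d1 : T.dist v n = 1 := dist_eq_one_iff_adj.2 a
  have d2 : T.dist v n' = 1 := dist_eq_one_iff_adj.2 a'
  rcases adj_dist hT a' z with c | c
  · have : n = n' := closer_unique hT a a' (w := z) (by unfold Bt at h; omega) (by omega)
    subst this
    unfold Bt; omega
  · exact absurd (glue hT z z' _ v n' rfl a' (by omega) (by omega)) h'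

variable (hρ : ∀ g u v, T.Adj u v → T.Adj (ρ g u) (ρ g v)) (hT : T.IsTree)
include hρ hT

theorem vertex_fg (H : Subgroup G) (hH : H.FG) (v : V)
    (he : ∀ u, T.Adj v u → (H ⊓ St ρ v ⊓ St ρ u).FG) : (H ⊓ St ρ v).FG := by
  classical
  obtain ⟨S, hS⟩ := hH
  -- the finite symmetric generating set
  set S0 : Set G := insert 1 ((S : Set G) ∪ (S : Set G)⁻¹) with hS0
  have hS0f : S0.Finite := ((S.finite_toSet.union (S.finite_toSet.inv))).insert 1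
  have hSH : ∀ s ∈ S0, s ∈ H := by
    intro s hs
    rw [← hS]
    rcases hs with rfl | hs | hs
    · exact Subgroup.one_mem _
    · exact Subgroup.subset_closure hs
    · have := (Subgroup.closure (S : Set G)).inv_mem (Subgroup.subset_closure hs)
      simpa using this
  -- the finite convex set
  set K : Set V := {m | ∃ s ∈ S0, Bt T v m (ρ s v)} with hK
  have hKf : K.Finite := by
    have : K = ⋃ s ∈ S0, {m | Bt T v m (ρ s v)} := by
      ext m; simp [hK]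
    rw [this]
    exact hS0f.biUnion fun s _ => seg_finite hT _ _
  have hvK : v ∈ K := ⟨1, Or.inl rfl, bt_left _ _⟩
  have hconv : ∀ z ∈ K, ∀ z' ∈ K, ∀ m, Bt T z m z' → m ∈ K := by
    rintro z ⟨s, hs, hz⟩ z' ⟨s', hs', hz'⟩ m hm
    rcases bt_or hT hm v with c | c
    · exact ⟨s, hs, bt_trans_left hT hz c.symm⟩
    · exact ⟨s', hs', bt_trans_left hT hz' c⟩
  have hconv' : ∀ g : G, ∀ z, ρ g⁻¹ z ∈ K → ∀ z', ρ g⁻¹ z' ∈ K → ∀ m, Bt T z m z' →
      ρ g⁻¹ m ∈ K := fun g z hz z' hz' m hm => hconv _ hz _ hz' _ (bt_act ρ hρ hT _ hm)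
  -- transversal
  have ht : ∃ t : V → G, t v = 1 ∧ ∀ u, (∃ h ∈ H, ρ h v = u) → t u ∈ H ∧ ρ (t u) v = u := by
    have : ∀ u, ∃ t : G, (u = v → t = 1) ∧ ((∃ h ∈ H, ρ h v = u) → t ∈ H ∧ ρ t v = u) := by
      intro u
      by_cases e : u = v
      · subst e
        exact ⟨1, fun _ => rfl, fun _ => ⟨H.one_mem, by simp⟩⟩
      · by_cases h : ∃ h ∈ H, ρ h v = u
        · obtain ⟨h, h1, h2⟩ := h
          exact ⟨h, fun e' => absurd e' e, fun _ => ⟨h1, h2⟩⟩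
        · exact ⟨1, fun _ => rfl, fun h' => absurd h' h⟩
    choose t ht using this
    exact ⟨t, (ht v).1 rfl, fun u hu => (ht u).2 hu⟩
  obtain ⟨t, ht1, ht2⟩ := ht
  -- the finite set of directions
  set Φ : Set V := {n | T.Adj v n ∧ ∃ u ∈ K, ρ (t u) n ∈ K} with hΦ
  have hΦf : Φ.Finite := by
    refine (hKf.biUnion fun u _ => hKf.preimage (f := ρ (t u)) (ρ (t u)).injective.injOn).subset ?_
    rintro n ⟨_, u, hu, hn⟩
    exact Set.mem_biUnion hu hn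
  have hc : ∃ c : V → V → G, ∀ φ φ', (∃ x ∈ H ⊓ St ρ v, ρ x φ' = φ) →
      c φ φ' ∈ H ⊓ St ρ v ∧ ρ (c φ φ') φ' = φ := by
    have : ∀ φ φ', ∃ c : G, (∃ x ∈ H ⊓ St ρ v, ρ x φ' = φ) →
        c ∈ H ⊓ St ρ v ∧ ρ c φ' = φ := by
      intro φ φ'
      by_cases h : ∃ x ∈ H ⊓ St ρ v, ρ x φ' = φ
      · obtain ⟨x, h1, h2⟩ := h
        exact ⟨x, fun _ => ⟨h1, h2⟩⟩
      · exact ⟨1, fun h' => absurd h' h⟩
    choose c hc using this
    exact ⟨c, hc⟩
  obtain ⟨c, hc⟩ := hc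
  have hE : ∃ E : V → Set G, (∀ φ, (E φ).Finite) ∧ ∀ φ, T.Adj v φ →
      Subgroup.closure (E φ) = H ⊓ St ρ v ⊓ St ρ φ := by
    have : ∀ φ, ∃ E : Set G, E.Finite ∧ (T.Adj v φ → Subgroup.closure E = H ⊓ St ρ v ⊓ St ρ φ) := by
      intro φ
      by_cases h : T.Adj v φ
      · obtain ⟨E, hE⟩ := he φ h
        exact ⟨E, E.finite_toSet, fun _ => hE⟩
      · exact ⟨∅, Set.finite_empty, fun h' => absurd h' h⟩
    choose E h1 h2 using this
    exact ⟨E, h1, h2⟩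
  obtain ⟨E, hE1, hE2⟩ := hE
  set Y : Set G := (({x | ∃ u ∈ K, ∃ s ∈ S0, ∃ u' ∈ K, x = (t u)⁻¹ * s * t u'} ∪
    {x | ∃ φ ∈ Φ, ∃ φ' ∈ Φ, x = c φ φ'}) ∩ (H ⊓ St ρ v : Subgroup G)) ∪ ⋃ φ ∈ Φ, E φ with hY
  have hYf : Y.Finite := by
    refine Set.Finite.union (Set.Finite.subset (Set.Finite.union ?_ ?_) Set.inter_subset_left)
      (hΦf.biUnion fun φ _ => hE1 φ)
    · refine ((hKf.prod (hS0f.prod hKf)).image fun p : V × G × V =>
        (t p.1)⁻¹ * p.2.1 * t p.2.2).subset ?_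
      rintro _ ⟨u, hu, s, hs, u', hu', rfl⟩
      exact ⟨(u, s, u'), ⟨hu, hs, hu'⟩, rfl⟩
    · refine ((hΦf.prod hΦf).image fun p : V × V => c p.1 p.2).subset ?_
      rintro _ ⟨u, hu, s, hs, rfl⟩
      exact ⟨(u, s), ⟨hu, hs⟩, rfl⟩
  set L := Subgroup.closure Y with hL
  have hLle : L ≤ H ⊓ St ρ v := by
    rw [hL, Subgroup.closure_le]
    rintro x (hx | hx)
    · exact hx.2
    · simp only [Set.mem_iUnion] at hx
      obtain ⟨φ, hφ, hx⟩ := hx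
      have h1 : x ∈ H ⊓ St ρ v ⊓ St ρ φ := by
        rw [← hE2 φ hφ.1]; exact Subgroup.subset_closure hx
      exact h1.1
  have hLφ : ∀ φ ∈ Φ, H ⊓ St ρ v ⊓ St ρ φ ≤ L := by
    intro φ hφ
    rw [← hE2 φ hφ.1, hL]
    refine Subgroup.closure_mono fun x hx => Or.inr ?_
    simp only [Set.mem_iUnion]
    exact ⟨φ, hφ, hx⟩
  have hLx : ∀ φ ∈ Φ, ∀ φ' ∈ Φ, ∀ x ∈ H ⊓ St ρ v, ρ x φ' = φ → x ∈ L := by
    intro φ hφ φ' hφ' x hx hxφ
    obtain ⟨h1, h2⟩ := hc φ φ' ⟨x, hx, hxφ⟩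
    have h3 : c φ φ' ∈ L := Subgroup.subset_closure (Or.inl ⟨Or.inr ⟨φ, hφ, φ', hφ', rfl⟩, h1⟩)
    have h4 : x * (c φ φ')⁻¹ ∈ L := by
      refine hLφ φ hφ ⟨(H ⊓ St ρ v).mul_mem hx ((H ⊓ St ρ v).inv_mem h1), ?_⟩
      have h5 : (c φ φ') ∈ Set.univ := trivial
      show ρ (x * (c φ φ')⁻¹) φ = φ
      rw [map_mul, map_inv, Equiv.Perm.mul_apply]
      have : (ρ (c φ φ'))⁻¹ φ = φ' := by rw [Equiv.Perm.inv_eq_iff_eq, h2]
      rw [this, hxφ]
    have := L.mul_mem h4 h3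
    simpa using this
  -- elements `g * t u` with `u = g⁻¹ v`
  have hstab : ∀ g ∈ H, g * t (ρ g⁻¹ v) ∈ H ⊓ St ρ v := by
    intro g hg
    obtain ⟨h1, h2⟩ := ht2 (ρ g⁻¹ v) ⟨g⁻¹, H.inv_mem hg, rfl⟩
    refine ⟨H.mul_mem hg h1, ?_⟩
    show ρ (g * t (ρ g⁻¹ v)) v = v
    rw [map_mul, Equiv.Perm.mul_apply, h2, map_inv]
    simp
  have hΦmem : ∀ g ∈ H, ρ g⁻¹ v ∈ K → ∀ n, T.Adj v n → ρ g⁻¹ n ∈ K →
      ρ (g * t (ρ g⁻¹ v))⁻¹ n ∈ Φ := by
    intro g hg hv n a hn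
    have h1 := (hstab g hg).2
    have h1 : ρ (g * t (ρ g⁻¹ v)) v = v := h1
    have h2 : ρ (g * t (ρ g⁻¹ v))⁻¹ v = v := by
      rw [map_inv, Equiv.Perm.inv_eq_iff_eq, h1]
    refine ⟨?_, ρ g⁻¹ v, hv, ?_⟩
    · have := hρ (g * t (ρ g⁻¹ v))⁻¹ v n a
      rwa [h2] at this
    · rw [mul_inv_rev, map_mul, Equiv.Perm.mul_apply, map_inv ρ (t _)]
      simpa using hn
  -- the invariant
  have main : ∀ g (_ : g ∈ Subgroup.closure (S : Set G)),
      (ρ g⁻¹ v ∈ K → g * t (ρ g⁻¹ v) ∈ L) ∧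
      (ρ g⁻¹ v ∉ K → ∃ n, ∃ l ∈ L, T.Adj v n ∧ (∀ z, ρ g⁻¹ z ∈ K → Bt T v n z) ∧
        ρ l⁻¹ n ∈ Φ) := by
    have step : ∀ g ∈ H, ∀ s ∈ S0, ((ρ g⁻¹ v ∈ K → g * t (ρ g⁻¹ v) ∈ L) ∧
      (ρ g⁻¹ v ∉ K → ∃ n, ∃ l ∈ L, T.Adj v n ∧ (∀ z, ρ g⁻¹ z ∈ K → Bt T v n z) ∧
        ρ l⁻¹ n ∈ Φ)) → ((ρ (g * s)⁻¹ v ∈ K → (g * s) * t (ρ (g * s)⁻¹ v) ∈ L) ∧
      (ρ (g * s)⁻¹ v ∉ K → ∃ n, ∃ l ∈ L, T.Adj v n ∧ (∀ z, ρ (g * s)⁻¹ z ∈ K → Bt T v n z) ∧
        ρ l⁻¹ n ∈ Φ)) := by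
      intro g hg s hs hI
      obtain ⟨z, hz1, hz2⟩ : ∃ z, ρ g⁻¹ z ∈ K ∧ ρ (g * s)⁻¹ z ∈ K := by
        refine ⟨ρ (g * s) v, ?_, ?_⟩
        · rw [← Equiv.Perm.mul_apply, ← map_mul]
          rw [inv_mul_cancel_left]
          exact ⟨s, hs, bt_right _ _⟩
        · rw [← Equiv.Perm.mul_apply, ← map_mul]
          rw [inv_mul_cancel]
          simpa using hvK
      have hgs : g * s ∈ H := H.mul_mem hg (hSH s hs)
      have hconst : ρ (g * s)⁻¹ v ∉ K → ∀ n, T.Adj v n → Bt T v n z →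
          ∀ z', ρ (g * s)⁻¹ z' ∈ K → Bt T v n z' := by
        intro hv n a hn z' hz'
        refine dir_const hT a hn fun hb => hv (hconv' (g * s) z hz2 z' hz' v hb)
      by_cases hv : ρ g⁻¹ v ∈ K
      · have hg1 := hI.1 hv
        refine ⟨fun hv' => ?_, fun hv' => ?_⟩
        · have e : (g * s) * t (ρ (g * s)⁻¹ v) = (g * t (ρ g⁻¹ v)) *
              ((t (ρ g⁻¹ v))⁻¹ * s * t (ρ (g * s)⁻¹ v)) := by group
          rw [e]
          refine L.mul_mem hg1 (Subgroup.subset_closure (Or.inl ⟨Or.inl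
            ⟨_, hv, s, hs, _, hv', rfl⟩, ?_⟩))
          have e2 : (t (ρ g⁻¹ v))⁻¹ * s * t (ρ (g * s)⁻¹ v) =
            (g * t (ρ g⁻¹ v))⁻¹ * ((g * s) * t (ρ (g * s)⁻¹ v)) := by group
          rw [e2]
          exact (H ⊓ St ρ v).mul_mem ((H ⊓ St ρ v).inv_mem (hstab g hg)) (hstab _ hgs)
        · have hzv : v ≠ z := by
            rintro rfl
            exact hv' hz2
          obtain ⟨n, a, hn⟩ := exists_closer hT hzv
          have hn' : Bt T v n z := by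
            have : T.dist v n = 1 := dist_eq_one_iff_adj.2 a
            unfold Bt; omega
          refine ⟨n, _, hg1, a, hconst hv' n a hn', ?_⟩
          exact hΦmem g hg hv n a (hconv' g v hv z hz1 n hn')
      · obtain ⟨n, l, hl, a, hn, hlΦ⟩ := hI.2 hv
        refine ⟨fun hv' => ?_, fun hv' => ?_⟩
        · have hn2 : ρ (g * s)⁻¹ n ∈ K := hconv' (g * s) v hv' z hz2 n (hn z hz1)
          have h1 := hΦmem (g * s) hgs hv' n a hn2
          set l' := (g * s) * t (ρ (g * s)⁻¹ v) with hl'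
          have h2 : l⁻¹ * l' ∈ H ⊓ St ρ v :=
            (H ⊓ St ρ v).mul_mem ((H ⊓ St ρ v).inv_mem (hLle hl)) (hstab _ hgs)
          have h3 := hLx _ hlΦ _ h1 (l⁻¹ * l') h2 (by
            rw [map_mul, Equiv.Perm.mul_apply, map_inv ρ l']
            simp)
          have := L.mul_mem hl h3
          simpa using this
        · exact ⟨n, l, hl, a, hconst hv' n a (hn z hz1), hlΦ⟩
    intro g hg
    induction hg using Subgroup.closure_induction_right with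
    | one =>
      refine ⟨fun _ => ?_, fun h => ?_⟩
      · simp [ht1, L.one_mem]
      · exact absurd (by simpa using hvK) h
    | mul_right x hx y hy ih =>
      exact step x (hS ▸ hx) y (Or.inr (Or.inl hy)) ih
    | mul_inv_cancel x hx y hy ih =>
      exact step x (hS ▸ hx) y⁻¹ (Or.inr (Or.inr (by simpa using hy))) ih
  have hfin : H ⊓ St ρ v ≤ L := by
    intro h hh
    have h1 : ρ h⁻¹ v = v := by
      rw [map_inv, Equiv.Perm.inv_eq_iff_eq]; exact hh.2.symm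
    have h2 := (main h (by rw [hS]; exact hh.1)).1 (by rw [h1]; exact hvK)
    rw [h1, ht1, mul_one] at h2
    exact h2
  rw [le_antisymm hfin hLle]
  exact (Subgroup.fg_iff _).2 ⟨Y, rfl, hYf⟩

end Pool.Agent.H346.AT
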