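import Pool.Agent.H346.AT.Higman

set_option autoImplicit false

/-!
# Facts on the free group of rank four
-/

namespace Pool.Agent.H346.AT

open FreeGroup

section fi

variable {α : Type} [DecidableEq α] (H : Subgroup (FreeGroup α)) (S : Set (FreeGroup α))

/-- elements in the right cosets of the prefixes of the elements of `S` -/
def A0 : Set (FreeGroup α) :=
  {x | ∃ h ∈ H, ∃ s ∈ S, ∃ n : ℕ, x = h * mk (s.toWord.take n)}

/-- words all of whose prefixes lie in `A0` -/
def Gd (w : List (α × Bool)) : Prop := ∀ n, mk (w.take n) ∈ A0 H S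

variable {H S}

lemma A0.mul {h x : FreeGroup α} (hh : h ∈ H) (hx : x ∈ A0 H S) : h * x ∈ A0 H S := by
  obtain ⟨h', hh', s, hs, n, rfl⟩ := hx
  exact ⟨h * h', H.mul_mem hh hh', s, hs, n, by rw [mul_assoc]⟩

lemma Gd.step {w w' : List (α × Bool)} (h : Gd H S w) (hr : Red.Step w w') : Gd H S w' := by
  cases hr with
  | @not L₁ L₂ x b =>
    intro n
    by_cases hn : n ≤ L₁.length
    · have := h n
      rw [List.take_append_of_le_length hn] at this ⊢
      exact this
    · obtain ⟨m, rfl⟩ : ∃ m, n = L₁.length + m := ⟨n - L₁.length, by omega⟩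
      have := h (L₁.length + (m + 2))
      rw [List.take_length_add_append] at this ⊢
      rw [List.take_succ_cons, List.take_succ_cons] at this
      have e : (mk (L₁ ++ (x, b) :: (x, !b) :: List.take m L₂) : FreeGroup α) =
          mk (L₁ ++ List.take m L₂) := Quot.sound Red.Step.not
      rwa [e] at this

lemma Gd.red {w w' : List (α × Bool)} (h : Gd H S w) (hr : Red w w') : Gd H S w' := by
  induction hr with
  | refl => exact h
  | tail _ h2 ih => exact ih.step h2

lemma Gd.append {u v : List (α × Bool)} (hu : Gd H S u) (hv : Gd H S v) (h : mk u ∈ H) :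
    Gd H S (u ++ v) := by
  intro n
  by_cases hn : n ≤ u.length
  · rw [List.take_append_of_le_length hn]; exact hu n
  · obtain ⟨m, rfl⟩ : ∃ m, n = u.length + m := ⟨n - u.length, by omega⟩
    rw [List.take_length_add_append, ← mul_mk]
    exact A0.mul h (hv m)

lemma gd_of_mem (h1 : (1 : FreeGroup α) ∈ S) (hS : ∀ s ∈ S, s⁻¹ ∈ S)
    (hc : Subgroup.closure S = H) {h : FreeGroup α} (hh : h ∈ H) : Gd H S h.toWord := by
  rw [← hc] at hh
  have hmem : ∀ s ∈ S, Gd H S s.toWord := fun s hs n => ⟨1, H.one_mem, s, hs, n, by rw [one_mul]⟩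
  have hm : ∀ x y : FreeGroup α, x ∈ H → Gd H S x.toWord → Gd H S y.toWord →
      Gd H S (x * y).toWord := by
    intro x y hx h1 h2
    rw [toWord_mul]
    exact (Gd.append h1 h2 (by rw [mk_toWord]; exact hx)).red reduce.red
  induction hh using Subgroup.closure_induction_right with
  | one => exact hmem 1 h1
  | mul_right x hx y hy ih => exact hm x y (hc ▸ hx) ih (hmem y hy)
  | mul_inv_cancel x hx y hy ih => exact hm x _ (hc ▸ hx) ih (hmem _ (hS y hy))

/-- a finitely generated subgroup such that every reduced word is a prefix of the reduced word of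
an element of the subgroup has finite index -/
lemma fi_of_prefix (hf : H.FG)
    (hp : ∀ x : FreeGroup α, ∃ h ∈ H, ∃ n : ℕ, x = mk (h.toWord.take n)) : H.FiniteIndex := by
  obtain ⟨S0, hS0⟩ := hf
  set S : Set (FreeGroup α) := insert 1 ((S0 : Set (FreeGroup α)) ∪ (S0 : Set (FreeGroup α))⁻¹)
    with hSdef
  have hSf : S.Finite := ((S0.finite_toSet.union (S0.finite_toSet.inv))).insert 1
  have h1 : (1 : FreeGroup α) ∈ S := Or.inl rfl
  have hS : ∀ s ∈ S, s⁻¹ ∈ S := by
    rintro s (rfl | hs | hs)
    · exact Or.inl inv_one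
    · exact Or.inr (Or.inr (by simpa using hs))
    · exact Or.inr (Or.inl hs)
  have hc : Subgroup.closure S = H := by
    apply le_antisymm
    · rw [Subgroup.closure_le, ← hS0]
      rintro s (rfl | hs | hs)
      · exact one_mem _
      · exact Subgroup.subset_closure hs
      · have := (Subgroup.closure (S0 : Set (FreeGroup α))).inv_mem (Subgroup.subset_closure hs)
        simpa using this
    · rw [← hS0]
      exact Subgroup.closure_mono fun x hx => Or.inr (Or.inl hx)
  -- the finite set of prefixes
  set P : Set (FreeGroup α) := ⋃ s ∈ S, (fun n : ℕ => (mk (s.toWord.take n) : FreeGroup α)) ''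
    (Set.Iic s.toWord.length) with hP
  have hPf : P.Finite := hSf.biUnion fun s _ => (Set.finite_Iic _).image _
  have hall : ∀ x : FreeGroup α, ∃ h ∈ H, ∃ p ∈ P, x = h * p := by
    intro x
    obtain ⟨h, hh, n, rfl⟩ := hp x
    obtain ⟨h', hh', s, hs, m, e⟩ := gd_of_mem h1 hS hc hh n
    refine ⟨h', hh', _, ?_, e⟩
    rw [hP]
    simp only [Set.mem_iUnion]
    refine ⟨s, hs, ?_⟩
    by_cases hm : m ≤ s.toWord.length
    · exact ⟨m, hm, rfl⟩
    · refine ⟨s.toWord.length, Set.mem_Iic.2 le_rfl, ?_⟩
      simp only
      rw [List.take_of_length_le (l := s.toWord) (le_refl s.toWord.length),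
        List.take_of_length_le (l := s.toWord) (i := m) (by omega)]
  have : Finite (FreeGroup α ⧸ H) := by
    have hfin : ((fun p : FreeGroup α => ((p⁻¹ : FreeGroup α) : FreeGroup α ⧸ H)) '' P).Finite :=
      hPf.image _
    apply Set.finite_univ_iff.1
    refine hfin.subset ?_
    intro q _
    obtain ⟨x, rfl⟩ := QuotientGroup.mk_surjective q
    obtain ⟨h, hh, p, hp, e⟩ := hall x⁻¹
    refine ⟨p, hp, ?_⟩
    simp only
    rw [QuotientGroup.eq]
    have : (p⁻¹)⁻¹ * x = h⁻¹ := by
      rw [← inv_inv x, e]; group
    rw [this]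
    exact H.inv_mem hh
  exact Subgroup.finiteIndex_of_finite_quotient

end fi

/-- the two relators used -/
def rw' (i : Fin 4) : List (Fin 4 × Bool) :=
  [(i + 1, true), (i, true), (i + 1, false), (i, false), (i, false)]

lemma hrel_eq (i : Fin 4) : hrel i = mk (rw' i) := rfl

lemma K_prefix (x : FreeGroup (Fin 4)) : ∃ h ∈ pr.ker, ∃ n : ℕ, x = mk (h.toWord.take n) := by
  rcases List.eq_nil_or_concat x.toWord with h | ⟨l, a, h⟩
  · refine ⟨1, one_mem _, 0, ?_⟩
    rw [List.take_zero, ← h, mk_toWord]
  · obtain ⟨i, hi1, hi2⟩ : ∃ i : Fin 4, i ≠ a.1 ∧ i + 1 ≠ a.1 := by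
      have : ∀ j : Fin 4, ∃ i : Fin 4, i ≠ j ∧ i + 1 ≠ j := by decide
      exact this a.1
    refine ⟨x * hrel i * x⁻¹, ?_, x.toWord.length, ?_⟩
    · rw [MonoidHom.mem_ker, _root_.map_mul, _root_.map_mul, hrel_one]
      simp
    · have e : x * hrel i * x⁻¹ = mk (x.toWord ++ rw' i ++ invRev x.toWord) := by
        rw [← mul_mk, ← mul_mk, ← inv_mk, mk_toWord, hrel_eq]
      have hx : IsReduced x.toWord := isReduced_toWord
      have hx' : IsReduced (invRev x.toWord) := by
        apply IsReduced.of_reduce_eq
        rw [reduce_invRev, hx.reduce_eq]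
      have hr : IsReduced (x.toWord ++ rw' i ++ invRev x.toWord) := by
        unfold FreeGroup.IsReduced
        rw [List.isChain_append, List.isChain_append]
        have hne : i + 1 ≠ i := by
          have : ∀ i : Fin 4, i + 1 ≠ i := by decide
          exact this i
        refine ⟨⟨hx, ?_, ?_⟩, hx', ?_⟩
        · simp [rw', hne, hne.symm]
        · intro p hp q hq
          rw [h] at hp
          simp only [List.concat_eq_append, List.getLast?_append, List.getLast?_singleton,
            Option.some_or, Option.mem_def, Option.some.injEq] at hp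
          simp only [rw', List.head?_cons, Option.mem_def, Option.some.injEq] at hq
          subst hp hq
          intro h'
          exact absurd h'.symm hi2
        · intro p hp q hq
          have hp' : p = (i, false) := by
            simp only [rw', List.getLast?_append, Option.mem_def] at hp
            simpa using hp.symm
          have hq' : q.1 = a.1 := by
            rw [h] at hq
            simp only [invRev, List.concat_eq_append, List.map_append, List.map_cons, List.map_nil,
              List.reverse_append, List.reverse_cons, List.reverse_nil, List.nil_append,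
              List.cons_append, List.head?_cons, Option.mem_def, Option.some.injEq] at hq
              
            rw [← hq]
          subst hp'
          intro h'
          exact absurd (h'.trans hq') hi1
      rw [e, toWord_mk, hr.reduce_eq, List.append_assoc, List.take_left, mk_toWord]

/-- a finitely generated subgroup containing the kernel is everything -/
theorem eq_top_of_fg (H : Subgroup (FreeGroup (Fin 4))) (hf : H.FG) (hK : pr.ker ≤ H) : H = ⊤ := by
  have h1 : H.FiniteIndex := fi_of_prefix hf fun x => by
    obtain ⟨h, hh, n, e⟩ := K_prefix x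
    exact ⟨h, hK hh, n, e⟩
  have h2 : (H.map pr).FiniteIndex := by
    refine ⟨fun h0 => h1.index_ne_zero ?_⟩
    have := Subgroup.index_map_dvd (f := pr) H pr_surj
    rw [h0, zero_dvd_iff] at this
    exact this
  have h3 := Q_finiteIndex _ h2
  rw [eq_top_iff]
  intro x _
  have h4 : pr x ∈ H.map pr := by rw [h3]; trivial
  obtain ⟨h, hh, e⟩ := h4
  have h5 : h⁻¹ * x ∈ H := hK (by
    rw [MonoidHom.mem_ker, _root_.map_mul, _root_.map_inv, e]; simp)
  have := H.mul_mem hh h5
  simpa using this

/-- the exponent sum of the first generator -/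
def chi : FreeGroup (Fin 4) →* Multiplicative ℤ :=
  lift fun i => if i = 0 then Multiplicative.ofAdd 1 else 1

lemma chi_r : chi (hrel 0) = Multiplicative.ofAdd (-1) := by
  simp only [hrel, _root_.map_mul, _root_.map_inv, chi, lift_apply_of]
  decide

/-- commuting elements of a free group are powers of a common element -/
lemma common_power {x y : FreeGroup (Fin 4)} (h : Commute x y) :
    ∃ (c : FreeGroup (Fin 4)) (s t : ℤ), x = c ^ s ∧ y = c ^ t := by
  let M : Subgroup (FreeGroup (Fin 4)) := Subgroup.closure {x, y}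
  have hcomm : ∀ a b : M, a * b = b * a := by
    have : IsMulCommutative M := Subgroup.isMulCommutative_closure (by
      rintro a (rfl | rfl) b (rfl | rfl)
      · rfl
      · exact h
      · exact h.symm
      · rfl)
    exact fun a b => mul_comm' a b
  have hsub : Subsingleton (IsFreeGroup.Generators M) := by
    refine ⟨fun i j => ?_⟩
    by_contra hij
    have h1 := hcomm ((IsFreeGroup.toFreeGroup M).symm (of i))
      ((IsFreeGroup.toFreeGroup M).symm (of j))
    rw [← _root_.map_mul, ← _root_.map_mul, EmbeddingLike.apply_eq_iff_eq] at h1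
    classical
    have h2 := congrArg toWord h1
    rw [toWord_mul, toWord_mul, toWord_of, toWord_of] at h2
    simp [FreeGroup.reduce, hij, Ne.symm hij] at h2
  have key : ∃ c : M, ∀ a : M, ∃ n : ℤ, a = c ^ n := by
    rcases isEmpty_or_nonempty (IsFreeGroup.Generators M) with he | ⟨⟨i⟩⟩
    · refine ⟨1, fun a => ⟨0, ?_⟩⟩
      apply (IsFreeGroup.toFreeGroup M).injective
      exact Subsingleton.elim _ _
    · refine ⟨(IsFreeGroup.toFreeGroup M).symm (of i), fun a => ?_⟩
      have h1 : (IsFreeGroup.toFreeGroup M) a ∈ Subgroup.closure (Set.range of) := by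
        rw [FreeGroup.closure_range_of]; trivial
      have h2 : Set.range (of : IsFreeGroup.Generators M → _) = {of i} := by
        ext z
        constructor
        · rintro ⟨j, rfl⟩
          rw [Subsingleton.elim j i]; rfl
        · rintro rfl; exact ⟨i, rfl⟩
      rw [h2, Subgroup.mem_closure_singleton] at h1
      obtain ⟨n, hn⟩ := h1
      refine ⟨n, ?_⟩
      rw [← map_zpow, hn]; simp
  obtain ⟨c, hc⟩ := key
  obtain ⟨s, hs⟩ := hc ⟨x, Subgroup.subset_closure (Or.inl rfl)⟩
  obtain ⟨t, ht⟩ := hc ⟨y, Subgroup.subset_closure (Or.inr rfl)⟩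
  exact ⟨c, s, t, congrArg Subtype.val hs, congrArg Subtype.val ht⟩

/-- elements conjugating powers of the relator to powers lie in the kernel -/
theorem conj_r {f : FreeGroup (Fin 4)} {j j' : ℤ} (h : f * hrel 0 ^ j = hrel 0 ^ j' * f)
    (hj : j ≠ 0) : pr f = 1 := by
  have h1 : j = j' := by
    have := congrArg chi h
    rw [_root_.map_mul, _root_.map_mul, map_zpow, map_zpow, chi_r, mul_comm] at this
    have := mul_right_cancel this
    rw [← ofAdd_zsmul, ← ofAdd_zsmul] at this
    have := Multiplicative.ofAdd.injective this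
    simpa using this
  subst h1
  have h2 : (f * hrel 0 * f⁻¹) ^ j = hrel 0 ^ j := by
    rw [conj_zpow, h, mul_inv_cancel_right]
  have h3 := zpow_left_injective hj h2
  have h4 : Commute f (hrel 0) := by
    rw [mul_inv_eq_iff_eq_mul] at h3; exact h3
  obtain ⟨c, s, t, hs, ht⟩ := common_power h4
  have h5 := chi_r
  rw [ht, map_zpow] at h5
  obtain ⟨m, hm⟩ : ∃ m : ℤ, chi c = Multiplicative.ofAdd m := ⟨(chi c).toAdd, rfl⟩
  rw [hm, ← ofAdd_zsmul] at h5
  have h6 := Multiplicative.ofAdd.injective h5
  have h7 : t = 1 ∨ t = -1 := by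
    have : t * m = -1 := by simpa using h6
    exact Int.isUnit_iff.1 (IsUnit.of_mul_eq_one (-m) (by linarith))
  have h8 : pr c = 1 := by
    have h9 := hrel_one 0
    rcases h7 with rfl | rfl
    · rw [ht] at h9; simpa using h9
    · rw [ht] at h9; simpa using h9
  rw [hs, map_zpow, h8, one_zpow]

lemma comm_ne : (hrel 2 * hrel 0)⁻¹ * (hrel 0 * hrel 2) ≠ 1 := by
  decide

theorem comm_infinite :
    (Subgroup.zpowers ((hrel 2 * hrel 0)⁻¹ * (hrel 0 * hrel 2)) : Set (FreeGroup (Fin 4))).Infinite :=
  infinite_zpowers.2 (not_isOfFinOrder_of_isMulTorsionFree comm_ne)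

end Pool.Agent.H346.AT
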