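import Pool.Agent.H346.AT.BS

set_option autoImplicit false

/-!
# Alternating products in amalgams
-/

namespace Pool.Agent.H346.AT

open Monoid

section push

universe u

variable {Z : Type u} [Group Z] {H : Bool → Type u} [∀ i, Group (H i)]
  (φ : ∀ i, Z →* H i) {G : Type*} [Group G] (j : ∀ i, H i →* G)
  (hj : ∀ z, j false (φ false z) = j true (φ true z))
  (Θ : G →* PushoutI φ) (hΘ : ∀ i h, Θ (j i h) = PushoutI.of i h)
  (hφ : ∀ i, Function.Injective (φ i))

include hj hΘ in
lemma alt_word {i k : Bool} {x : G} (h : Alt (fun i => (j i).range) i k x) :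
    ∃ w : CoprodI.Word H, PushoutI.ofCoprodI (φ := φ) w.prod = Θ x ∧ w ≠ .empty ∧
      PushoutI.Reduced φ w ∧ w.fstIdx = some i := by
  have hr : ∀ i (h : H i), j i h ∉ (j (!i)).range → h ∉ (φ i).range := by
    rintro i _ h1 ⟨z, rfl⟩
    apply h1
    cases i
    · exact ⟨φ true z, (hj z).symm⟩
    · exact ⟨φ false z, hj z⟩
  have hne : ∀ i (h : H i), j i h ∉ (j (!i)).range → h ≠ 1 := by
    rintro i _ h1 rfl
    apply h1
    rw [map_one]; exact one_mem _
  induction h with
  | one i c h1 h2 =>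
    obtain ⟨h, rfl⟩ := h1
    have hE : (CoprodI.Word.empty : CoprodI.Word H).fstIdx ≠ some i := fun h => by cases h
    refine ⟨CoprodI.Word.cons h .empty hE (hne i h h2), ?_, ?_, ?_, ?_⟩
    · rw [CoprodI.Word.prod_cons, CoprodI.Word.prod_empty, mul_one, PushoutI.ofCoprodI_of, hΘ]
    · intro h
      have := congrArg CoprodI.Word.toList h
      simp [CoprodI.Word.cons, CoprodI.Word.empty] at this
    · intro g hg
      simp only [CoprodI.Word.cons, CoprodI.Word.empty, List.mem_singleton] at hg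
      subst hg
      exact hr i h h2
    · exact CoprodI.Word.fstIdx_cons _ _ _ _
  | cons i k c x h1 h2 h3 ih =>
    obtain ⟨h, rfl⟩ := h1
    obtain ⟨w, hw1, hw2, hw3, hw4⟩ := ih
    refine ⟨CoprodI.Word.cons h w (by rw [hw4]; simp) (hne i h h2), ?_, ?_, ?_, ?_⟩
    · rw [CoprodI.Word.prod_cons, map_mul, PushoutI.ofCoprodI_of, hw1, map_mul, hΘ]
    · intro h
      have := congrArg CoprodI.Word.toList h
      simp [CoprodI.Word.cons, CoprodI.Word.empty] at this
    · intro g hg
      simp only [CoprodI.Word.cons, List.mem_cons] at hg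
      rcases hg with rfl | hg
      · exact hr i h h2
      · exact hw3 g hg
    · exact CoprodI.Word.fstIdx_cons _ _ _ _

include hj hΘ hφ in
theorem nf_push : NF (fun i => (j i).range) := by
  intro i k x hx h1
  obtain ⟨w, hw1, hw2, hw3, -⟩ := alt_word φ j hj Θ hΘ hx
  refine hw2 (hw3.eq_empty_of_mem_range hφ ?_)
  rw [hw1, h1, map_one]
  exact one_mem _

include hΘ hφ in
theorem inter_push {x : G} (h0 : x ∈ (j false).range) (h1 : x ∈ (j true).range) :
    ∃ z, x = j false (φ false z) := by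
  obtain ⟨a, rfl⟩ := h0
  obtain ⟨b, hb⟩ := h1
  have h2 : PushoutI.of (φ := φ) false a ∈ (PushoutI.of (φ := φ) false).range ⊓
      (PushoutI.of (φ := φ) true).range := by
    refine ⟨⟨a, rfl⟩, ⟨b, ?_⟩⟩
    rw [← hΘ, ← hΘ, hb]
  rw [PushoutI.inf_of_range_eq_base_range hφ (by simp)] at h2
  obtain ⟨z, hz⟩ := h2
  rw [← PushoutI.of_apply_eq_base φ false z] at hz
  have := PushoutI.of_injective hφ false hz
  exact ⟨z, by rw [this]⟩

end push

end Pool.Agent.H346.AT
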