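import Pool.Agent.H346.AT.BS

set_option autoImplicit false

/-!
# Enlarging the edge group of an amalgam
-/

namespace Pool.Agent.H346.AT

open SimpleGraph

variable {G : Type*} [Group G] (C : Bool → Subgroup G) (B : Subgroup G)

/-- the new pair of vertex groups -/
def nC : Bool → Subgroup G := fun b => cond b (B ⊔ C true) (C false)

/-- reduced products in `⟨B, W⟩` -/
inductive Rd : G → Prop
  | one (β w : G) (h1 : β ∈ B) (h2 : w ∈ C true) (h3 : w ∉ C false) : Rd (β * w)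
  | step (q β w : G) (h0 : Rd q) (h1 : β ∈ B) (h1' : β ∉ C true) (h2 : w ∈ C true)
      (h3 : w ∉ C false) : Rd (q * β * w)

variable {C B}
variable (hC : NF C) (hZ : C false ⊓ C true ≤ B) (hBA : B ≤ C false)

include hZ in
lemma mem_P {p : G} (hp : p ∈ B ⊔ C true) :
    p ∈ B ∨ ∃ q β, Rd C B q ∧ β ∈ B ∧ p = q * β := by
  have hp' : p ∈ Subgroup.closure ((B : Set G) ∪ (C true : Set G)) := by
    rw [Subgroup.closure_union, Subgroup.closure_eq, Subgroup.closure_eq]; exact hp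
  have s1 : ∀ x y : G, y ∈ B → (x ∈ B ∨ ∃ q β, Rd C B q ∧ β ∈ B ∧ x = q * β) →
      (x * y ∈ B ∨ ∃ q β, Rd C B q ∧ β ∈ B ∧ x * y = q * β) := by
    rintro x y hy (h | ⟨q, β, h1, h2, rfl⟩)
    · exact Or.inl (B.mul_mem h hy)
    · exact Or.inr ⟨q, β * y, h1, B.mul_mem h2 hy, by rw [mul_assoc]⟩
  have s2 : ∀ x w : G, w ∈ C true → (x ∈ B ∨ ∃ q β, Rd C B q ∧ β ∈ B ∧ x = q * β) →
      (x * w ∈ B ∨ ∃ q β, Rd C B q ∧ β ∈ B ∧ x * w = q * β) := by
    intro x w hw hx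
    by_cases hw' : w ∈ C false
    · exact s1 x w (hZ ⟨hw', hw⟩) hx
    rcases hx with h | ⟨q, β, h1, h2, rfl⟩
    · exact Or.inr ⟨x * w, 1, Rd.one _ _ h hw hw', B.one_mem, by simp⟩
    by_cases h3 : β ∈ C true
    · have h4 : β * w ∈ C true := (C true).mul_mem h3 hw
      cases h1 with
      | one β₀ w₁ a1 a2 a3 =>
        have h5 : w₁ * (β * w) ∈ C true := (C true).mul_mem a2 h4
        have e : β₀ * w₁ * β * w = β₀ * (w₁ * (β * w)) := by group
        rw [e]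
        by_cases h6 : w₁ * (β * w) ∈ C false
        · exact Or.inl (B.mul_mem a1 (hZ ⟨h6, h5⟩))
        · exact Or.inr ⟨_, 1, Rd.one _ _ a1 h5 h6, B.one_mem, by simp⟩
      | step q' β₀ w₁ a0 a1 a1' a2 a3 =>
        have h5 : w₁ * (β * w) ∈ C true := (C true).mul_mem a2 h4
        have e : q' * β₀ * w₁ * β * w = q' * β₀ * (w₁ * (β * w)) := by group
        rw [e]
        by_cases h6 : w₁ * (β * w) ∈ C false
        · exact Or.inr ⟨q', β₀ * (w₁ * (β * w)), a0, B.mul_mem a1 (hZ ⟨h6, h5⟩),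
            by rw [mul_assoc]⟩
        · exact Or.inr ⟨_, 1, Rd.step _ _ _ a0 a1 a1' h5 h6, B.one_mem, by simp⟩
    · exact Or.inr ⟨_, 1, Rd.step _ _ _ h1 h2 h3 hw hw', B.one_mem, by simp⟩
  clear hp
  induction hp' using Subgroup.closure_induction_right with
  | one => exact Or.inl B.one_mem
  | mul_right x hx y hy ih =>
    rcases hy with hy | hy
    · exact s1 x y hy ih
    · exact s2 x y hy ih
  | mul_inv_cancel x hx y hy ih =>
    rcases hy with hy | hy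
    · exact s1 x _ (B.inv_mem hy) ih
    · exact s2 x _ ((C true).inv_mem hy) ih

include hBA in
lemma Rd.alt {q : G} (h : Rd C B q) : ∃ β ∈ B, Alt C true true (β⁻¹ * q) := by
  induction h with
  | one β w h1 h2 h3 => exact ⟨β, h1, by rw [inv_mul_cancel_left]; exact Alt.one _ _ h2 h3⟩
  | step q β w h0 h1 h1' h2 h3 ih =>
    obtain ⟨β₀, hβ, ha⟩ := ih
    refine ⟨β₀, hβ, ?_⟩
    have := ha.trans (Alt.cons false true β w (hBA h1) h1' (Alt.one true w h2 h3))
    rwa [show β₀⁻¹ * (q * β * w) = β₀⁻¹ * q * (β * w) by group]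

include hZ hBA in
lemma P_cases {p : G} (hp : p ∈ B ⊔ C true) (hp' : p ∉ B) :
    ∃ β ∈ B, ∃ β' ∈ B, ∃ y, Alt C true true y ∧ p = β * y * β' := by
  rcases mem_P hZ hp with h | ⟨q, β', h1, h2, rfl⟩
  · exact absurd h hp'
  · obtain ⟨β, hβ, ha⟩ := h1.alt hBA
    exact ⟨β, hβ, β', h2, _, ha, by group⟩

include hC hZ hBA in
lemma P_inter {p : G} (hp : p ∈ B ⊔ C true) (hp' : p ∈ C false) : p ∈ B := by
  by_contra h
  obtain ⟨β, hβ, β', hβ', y, hy, rfl⟩ := P_cases hZ hBA hp h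
  apply hy.not_mem hC
  have := (C false).mul_mem ((C false).mul_mem ((C false).inv_mem (hBA hβ)) hp')
    ((C false).inv_mem (hBA hβ'))
  have e : β⁻¹ * (β * y * β') * β'⁻¹ = y := by group
  rwa [e] at this

include hZ hBA in
lemma nC_alt {i j : Bool} {x : G} (h : Alt (nC C B) i j x) :
    (i = false → ∃ β' ∈ B, ∀ β ∈ B, Alt C false j (β * x * β')) ∧
    (i = true → ∃ β ∈ B, ∃ β' ∈ B, Alt C true j (β * x * β')) := by
  have hA : ∀ {a : G}, a ∈ C false → a ∉ B → a ∉ C true := fun h1 h2 h3 => h2 (hZ ⟨h1, h3⟩)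
  induction h with
  | one i c h1 h2 =>
    cases i
    · refine ⟨fun _ => ⟨1, B.one_mem, fun β hβ => ?_⟩, fun h => by simp at h⟩
      have h1 : c ∈ C false := h1
      have h2 : c ∉ B ⊔ C true := h2
      have h3 : β * c * 1 ∉ B := by
        intro h
        apply h2
        apply (le_sup_left : B ≤ B ⊔ C true)
        have := B.mul_mem (B.inv_mem hβ) h
        simpa using this
      have h4 : β * c * 1 ∈ C false := by
        simpa using (C false).mul_mem (hBA hβ) h1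
      exact Alt.one _ _ h4 (hA h4 h3)
    · refine ⟨fun h => by simp at h, fun _ => ?_⟩
      have h1 : c ∈ B ⊔ C true := h1
      have h2 : c ∉ C false := h2
      obtain ⟨β, hβ, β', hβ', y, hy, rfl⟩ := P_cases hZ hBA h1 (fun h => h2 (hBA h))
      refine ⟨β⁻¹, B.inv_mem hβ, β'⁻¹, B.inv_mem hβ', ?_⟩
      have e : β⁻¹ * (β * y * β') * β'⁻¹ = y := by group
      rwa [e]
  | cons i j c x h1 h2 h3 ih =>
    cases i
    · refine ⟨fun _ => ?_, fun h => by simp at h⟩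
      have h1 : c ∈ C false := h1
      have h2 : c ∉ B ⊔ C true := h2
      obtain ⟨β₁, hβ₁, β', hβ', hx⟩ := ih.2 rfl
      refine ⟨β', hβ', fun β hβ => ?_⟩
      have h3 : β * c * β₁⁻¹ ∉ B := by
        intro h
        apply h2
        apply (le_sup_left : B ≤ B ⊔ C true)
        have := B.mul_mem (B.mul_mem (B.inv_mem hβ) h) hβ₁
        have e : β⁻¹ * (β * c * β₁⁻¹) * β₁ = c := by group
        rwa [e] at this
      have h4 : β * c * β₁⁻¹ ∈ C false :=
        (C false).mul_mem ((C false).mul_mem (hBA hβ) h1) ((C false).inv_mem (hBA hβ₁))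
      have := Alt.cons false j _ _ h4 (hA h4 h3) hx
      have e : β * c * β₁⁻¹ * (β₁ * x * β') = β * (c * x) * β' := by group
      rwa [e] at this
    · refine ⟨fun h => by simp at h, fun _ => ?_⟩
      have h1 : c ∈ B ⊔ C true := h1
      have h2 : c ∉ C false := h2
      obtain ⟨β, hβ, β₁, hβ₁, y, hy, rfl⟩ := P_cases hZ hBA h1 (fun h => h2 (hBA h))
      obtain ⟨β', hβ', hx⟩ := ih.1 rfl
      refine ⟨β⁻¹, B.inv_mem hβ, β', hβ', ?_⟩
      have := hy.trans (hx β₁ hβ₁)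
      have e : y * (β₁ * x * β') = β⁻¹ * (β * y * β₁ * x) * β' := by group
      rwa [e] at this

include hC hZ hBA in
theorem nC_nf : NF (nC C B) := by
  intro i j x hx h1
  subst h1
  obtain ⟨h1, h2⟩ := nC_alt hZ hBA hx
  cases i
  · obtain ⟨β', hβ', h⟩ := h1 rfl
    have := h β'⁻¹ (B.inv_mem hβ')
    exact hC _ _ _ this (by simp)
  · obtain ⟨β, hβ, β', hβ', h⟩ := h2 rfl
    apply h.not_mem' hC
    simpa using (C false).mul_mem (hBA hβ) (hBA hβ')

include hC hZ hBA in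
/-- an element of `B` conjugated into `A` by an element of `P \ B` is conjugate into `Z` -/
lemma conj_P {x p : G} (hx : x ∈ B) (hp : p ∈ B ⊔ C true) (hp' : p ∉ B)
    (h : p⁻¹ * x * p ∈ C false) : ∃ β ∈ B, β⁻¹ * x * β ∈ C false ⊓ C true := by
  obtain ⟨β, hβ, β', hβ', y, hy, rfl⟩ := P_cases hZ hBA hp hp'
  refine ⟨β, hβ, ?_⟩
  have h1 : β⁻¹ * x * β ∈ C false := hBA (B.mul_mem (B.mul_mem (B.inv_mem hβ) hx) hβ)
  refine ⟨h1, ?_⟩
  by_contra h2
  have h3 := hy.inv.trans (Alt.cons false true _ _ h1 h2 hy)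
  apply h3.not_mem hC
  have h4 := (C false).mul_mem ((C false).mul_mem (hBA hβ') h) ((C false).inv_mem (hBA hβ'))
  have e : β' * ((β * y * β')⁻¹ * x * (β * y * β')) * β'⁻¹ = y⁻¹ * (β⁻¹ * x * β * y) := by group
  rwa [e] at h4

variable
  (h2 : ∀ h ∈ C false, h ∉ B → ∀ z ∈ C false ⊓ C true, h⁻¹ * z * h ∈ C false ⊓ C true → z = 1)

lemma adj_cases {D : Bool → Subgroup G} {v u : BV D} (h : (bsGraph D).Adj v u)
    (hv : v.1 = false ∨ u.1 = true) : ∃ g, v = bv D false g ∧ u = bv D true g := by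
  obtain ⟨i, g, rfl, rfl⟩ := h
  have : i = false := by
    rcases hv with hv | hv
    · exact hv
    · have hv' : (!i) = true := hv
      simpa using hv'
  subst this
  exact ⟨g, rfl, rfl⟩

include hC hZ hBA h2 in
/-- an element fixing a path of length four with the middle vertex of the first kind is trivial -/
lemma fix_four {g : G} {v₁ u₁ v₂ u₂ v₃ : BV (nC C B)} (hv₂ : v₂.1 = false)
    (a1 : (bsGraph (nC C B)).Adj v₁ u₁) (a2 : (bsGraph (nC C B)).Adj v₂ u₁)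
    (a3 : (bsGraph (nC C B)).Adj v₂ u₂) (a4 : (bsGraph (nC C B)).Adj v₃ u₂)
    (n1 : v₁ ≠ v₂) (n2 : u₁ ≠ u₂) (n3 : v₃ ≠ v₂)
    (f1 : bsAct (nC C B) g v₁ = v₁) (f2 : bsAct (nC C B) g u₁ = u₁)
    (f3 : bsAct (nC C B) g v₂ = v₂) (f4 : bsAct (nC C B) g u₂ = u₂)
    (f5 : bsAct (nC C B) g v₃ = v₃) : g = 1 := by
  obtain ⟨g₁, e1, e2⟩ := adj_cases a2 (Or.inl hv₂)
  obtain ⟨g₂, e3, e4⟩ := adj_cases a3 (Or.inl hv₂)
  obtain ⟨g₀, e5, e6⟩ := adj_cases a1 (Or.inr (by rw [e2]; rfl))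
  obtain ⟨g₃, e7, e8⟩ := adj_cases a4 (Or.inr (by rw [e4]; rfl))
  have side : ∀ (k l : G), bv (nC C B) true l = bv (nC C B) true k →
      bv (nC C B) false l ≠ bv (nC C B) false k →
      bsAct (nC C B) g (bv _ false k) = bv _ false k → bsAct (nC C B) g (bv _ true k) = bv _ true k →
      bsAct (nC C B) g (bv _ false l) = bv _ false l →
      ∃ β ∈ B, (k * β)⁻¹ * g * (k * β) ∈ C false ⊓ C true := by
    intro k l h1 h2 h3 h4 h5
    rw [bsAct_fix] at h3 h4 h5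
    have hx : k⁻¹ * g * k ∈ B := P_inter hC hZ hBA h4 h3
    have hp : k⁻¹ * l ∈ B ⊔ C true := by
      rw [eq_comm, bv_eq] at h1; exact h1
    have hp' : k⁻¹ * l ∉ B := fun h => h2 (by
      rw [eq_comm, bv_eq]; exact hBA h)
    obtain ⟨β, hβ, hz⟩ := conj_P hC hZ hBA hx hp hp' (by
      have e : (k⁻¹ * l)⁻¹ * (k⁻¹ * g * k) * (k⁻¹ * l) = l⁻¹ * g * l := by group
      rw [e]; exact h5)
    refine ⟨β, hβ, ?_⟩
    have e : (k * β)⁻¹ * g * (k * β) = β⁻¹ * (k⁻¹ * g * k) * β := by group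
    rwa [e]
  obtain ⟨β, hβ, hz⟩ := side g₁ g₀ (by rw [← e6, ← e2]) (by rw [← e5, ← e1]; exact n1)
    (by rw [← e1]; exact f3) (by rw [← e2]; exact f2) (by rw [← e5]; exact f1)
  obtain ⟨β', hβ', hz'⟩ := side g₂ g₃ (by rw [← e8, ← e4]) (by rw [← e7, ← e3]; exact n3)
    (by rw [← e3]; exact f3) (by rw [← e4]; exact f4) (by rw [← e7]; exact f5)
  have h3 : g₁⁻¹ * g₂ ∈ C false := by
    have := e1.symm.trans e3
    rwa [bv_eq] at this
  have h4 : g₁⁻¹ * g₂ ∉ B := by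
    intro h
    apply n2
    rw [e2, e4, bv_eq]
    exact (le_sup_left : B ≤ B ⊔ C true) h
  have h5 : (g₁ * β)⁻¹ * (g₂ * β') ∈ C false := by
    have := (C false).mul_mem ((C false).mul_mem ((C false).inv_mem (hBA hβ)) h3) (hBA hβ')
    have e : (g₁ * β)⁻¹ * (g₂ * β') = β⁻¹ * (g₁⁻¹ * g₂) * β' := by group
    rwa [e]
  have h6 : (g₁ * β)⁻¹ * (g₂ * β') ∉ B := by
    intro h
    apply h4
    have := B.mul_mem (B.mul_mem hβ h) (B.inv_mem hβ')
    have e : β * ((g₁ * β)⁻¹ * (g₂ * β')) * β'⁻¹ = g₁⁻¹ * g₂ := by group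
    rwa [e] at this
  have h7 := h2 _ h5 h6 _ hz (by
    have e : ((g₁ * β)⁻¹ * (g₂ * β'))⁻¹ * ((g₁ * β)⁻¹ * g * (g₁ * β)) * ((g₁ * β)⁻¹ * (g₂ * β')) =
      (g₂ * β')⁻¹ * g * (g₂ * β') := by group
    rw [e]; exact hz')
  have h8 : (g₁ * β)⁻¹ * g * (g₁ * β) = 1 := h7
  have e : g = (g₁ * β) * ((g₁ * β)⁻¹ * g * (g₁ * β)) * (g₁ * β)⁻¹ := by group
  rw [e, h8]; group

include hC hZ hBA h2 in
/-- the action is acylindrical -/
theorem bs_acyl {u v : BV (nC C B)} (p : (bsGraph (nC C B)).Walk u v) (hp : p.IsPath)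
    (hl : 5 ≤ p.length) (g : G) (hg : ∀ x ∈ p.support, bsAct (nC C B) g x = x) : g = 1 := by
  have hf : ∀ k, bsAct (nC C B) g (p.getVert k) = p.getVert k :=
    fun k => hg _ (p.getVert_mem_support k)
  have ha : ∀ k, k < 5 → (bsGraph (nC C B)).Adj (p.getVert k) (p.getVert (k + 1)) :=
    fun k hk => p.adj_getVert_succ (by omega)
  have hn : ∀ k l, k ≤ 5 → l ≤ 5 → k ≠ l → p.getVert k ≠ p.getVert l := by
    intro k l hk hl' hkl h
    exact hkl (hp.getVert_injOn (by simp; omega) (by simp; omega) h)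
  have hflip : ∀ k, k < 5 → (p.getVert (k + 1)).1 = !(p.getVert k).1 := by
    intro k hk
    obtain ⟨i, x, e1, e2⟩ := ha k hk
    rw [e1, e2]; rfl
  by_cases h0 : (p.getVert 0).1 = false
  · refine fix_four hC hZ hBA h2 (v₁ := p.getVert 0) (u₁ := p.getVert 1) (v₂ := p.getVert 2)
      (u₂ := p.getVert 3) (v₃ := p.getVert 4) ?_ (ha 0 (by omega)) (ha 1 (by omega)).symm
      (ha 2 (by omega)) (ha 3 (by omega)).symm (hn _ _ (by omega) (by omega) (by omega))
      (hn _ _ (by omega) (by omega) (by omega)) (hn _ _ (by omega) (by omega) (by omega))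
      (hf _) (hf _) (hf _) (hf _) (hf _)
    rw [hflip 1 (by omega), hflip 0 (by omega), h0]; rfl
  · refine fix_four hC hZ hBA h2 (v₁ := p.getVert 1) (u₁ := p.getVert 2) (v₂ := p.getVert 3)
      (u₂ := p.getVert 4) (v₃ := p.getVert 5) ?_ (ha 1 (by omega)) (ha 2 (by omega)).symm
      (ha 3 (by omega)) (ha 4 (by omega)).symm (hn _ _ (by omega) (by omega) (by omega))
      (hn _ _ (by omega) (by omega) (by omega)) (hn _ _ (by omega) (by omega) (by omega))
      (hf _) (hf _) (hf _) (hf _) (hf _)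
    rw [hflip 2 (by omega), hflip 1 (by omega), hflip 0 (by omega)]
    revert h0
    cases (p.getVert 0).1 <;> simp

end Pool.Agent.H346.AT
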