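import Pool.Agent.H346.AT.Agp
import Pool.Agent.H346.AT.Push
import Pool.Agent.H346.AT.Ref

set_option autoImplicit false

/-!
# The finitely presented group
-/

namespace Pool.Agent.H346.AT

open Monoid Multiplicative

/-- the ten generators -/
inductive Gen : Type
  | q (i : Fin 4) : Gen
  | x (i : Fin 4) : Gen
  | b : Gen
  | w : Gen
  deriving DecidableEq, Fintype

open FreeGroup in
/-- the relator in the letters `x` -/
def xr : FreeGroup Gen := FreeGroup.map Gen.x (hrel 0)

/-- the relators of Higman's group in the letters `q` -/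
def rel1 (i : Fin 4) : FreeGroup Gen := FreeGroup.map Gen.q (hrel i)

/-- the letters `x` and `q` commute -/
def rel2 (p : Fin 4 × Fin 4) : FreeGroup Gen :=
  FreeGroup.of (Gen.x p.1) * FreeGroup.of (Gen.q p.2) * (FreeGroup.of (Gen.x p.1))⁻¹ *
    (FreeGroup.of (Gen.q p.2))⁻¹

/-- the action of the letters `x` on `b` -/
def rel3 (i : Fin 4) : FreeGroup Gen :=
  FreeGroup.of (Gen.x i) * FreeGroup.of Gen.b * (FreeGroup.of (Gen.x i))⁻¹ * (FreeGroup.of Gen.b)⁻¹ *
    FreeGroup.of (Gen.q i)

/-- `w` commutes with `b` -/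
def rel4 : FreeGroup Gen :=
  FreeGroup.of Gen.w * FreeGroup.of Gen.b * (FreeGroup.of Gen.w)⁻¹ * (FreeGroup.of Gen.b)⁻¹

/-- `w` commutes with the relator in the letters `x` -/
def rel5 : FreeGroup Gen := FreeGroup.of Gen.w * xr * (FreeGroup.of Gen.w)⁻¹ * xr⁻¹

/-- the 26 relators -/
def rels : Set (FreeGroup Gen) :=
  Set.range rel1 ∪ (Set.range rel2 ∪ (Set.range rel3 ∪ {rel4, rel5}))

lemma rels_finite : rels.Finite :=
  (Set.finite_range _).union ((Set.finite_range _).union ((Set.finite_range _).union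
    ((Set.finite_singleton _).insert _)))

/-- the group -/
abbrev GG : Type := PresentedGroup rels

/-- a system of elements satisfying the relations -/
structure Sys {M : Type*} [Group M] (y : Gen → M) : Prop where
  h1 : HRel fun i => y (.q i)
  h2 : ∀ i j, y (.x i) * y (.q j) * (y (.x i))⁻¹ = y (.q j)
  h3 : ∀ i, y (.x i) * y .b * (y (.x i))⁻¹ = (y (.q i))⁻¹ * y .b
  h4 : y .w * y .b * (y .w)⁻¹ = y .b
  h5 : y .w * FreeGroup.lift (fun i => y (.x i)) (hrel 0) * (y .w)⁻¹ =
    FreeGroup.lift (fun i => y (.x i)) (hrel 0)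

section hom

variable {M : Type*} [Group M] {y : Gen → M}

lemma lift_map (y : Gen → M) (f : Fin 4 → Gen) (v : FreeGroup (Fin 4)) :
    FreeGroup.lift y (FreeGroup.map f v) = FreeGroup.lift (fun i => y (f i)) v := by
  have : (FreeGroup.lift y).comp (FreeGroup.map f) = FreeGroup.lift (fun i => y (f i)) := by
    ext i; simp
  exact DFunLike.congr_fun this v

lemma lift_xr (y : Gen → M) : FreeGroup.lift y xr = FreeGroup.lift (fun i => y (.x i)) (hrel 0) :=
  lift_map y _ _

lemma lift_rel1 (y : Gen → M) (i : Fin 4) : FreeGroup.lift y (rel1 i) =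
    y (.q (i + 1)) * y (.q i) * (y (.q (i + 1)))⁻¹ * (y (.q i))⁻¹ * (y (.q i))⁻¹ := by
  rw [rel1, lift_map]
  simp only [hrel, map_mul, map_inv, FreeGroup.lift_apply_of]

lemma lift_rel2 (y : Gen → M) (p : Fin 4 × Fin 4) : FreeGroup.lift y (rel2 p) =
    y (.x p.1) * y (.q p.2) * (y (.x p.1))⁻¹ * (y (.q p.2))⁻¹ := by
  simp only [rel2, map_mul, map_inv, FreeGroup.lift_apply_of]

lemma lift_rel3 (y : Gen → M) (i : Fin 4) : FreeGroup.lift y (rel3 i) =
    y (.x i) * y .b * (y (.x i))⁻¹ * (y .b)⁻¹ * y (.q i) := by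
  simp only [rel3, map_mul, map_inv, FreeGroup.lift_apply_of]

lemma lift_rel4 (y : Gen → M) : FreeGroup.lift y rel4 = y .w * y .b * (y .w)⁻¹ * (y .b)⁻¹ := by
  simp only [rel4, map_mul, map_inv, FreeGroup.lift_apply_of]

lemma lift_rel5 (y : Gen → M) : FreeGroup.lift y rel5 =
    y .w * FreeGroup.lift (fun i => y (.x i)) (hrel 0) * (y .w)⁻¹ *
      (FreeGroup.lift (fun i => y (.x i)) (hrel 0))⁻¹ := by
  simp only [rel5, map_mul, map_inv, FreeGroup.lift_apply_of, lift_xr]

/-- the homomorphism given by a system -/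
def toM (h : Sys y) : GG →* M :=
  PresentedGroup.toGroup (f := y) (by
    rintro _ (⟨i, rfl⟩ | ⟨p, rfl⟩ | ⟨i, rfl⟩ | rfl | rfl)
    · rw [lift_rel1]
      have : y (.q (i + 1)) * y (.q i) * (y (.q (i + 1)))⁻¹ = y (.q i) * y (.q i) := h.h1 i
      rw [this]; group
    · rw [lift_rel2, h.h2, mul_inv_cancel]
    · rw [lift_rel3, h.h3]; group
    · rw [lift_rel4, h.h4, mul_inv_cancel]
    · rw [lift_rel5, h.h5, mul_inv_cancel])

/-- the generators of the group -/
def gg (g : Gen) : GG := PresentedGroup.of g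

lemma toM_gg (h : Sys y) (g : Gen) : toM h (gg g) = y g := PresentedGroup.toGroup.of _

lemma mk_lift (v : FreeGroup Gen) : FreeGroup.lift gg v = PresentedGroup.mk rels v := by
  have : FreeGroup.lift gg = PresentedGroup.mk rels := by
    ext g; simp [gg, PresentedGroup.of]
  rw [this]

lemma gg_sys : Sys gg := by
  have key : ∀ v ∈ rels, FreeGroup.lift gg v = 1 := fun v hv => by
    rw [mk_lift]
    exact PresentedGroup.mk_eq_one_iff.2 (Subgroup.subset_normalClosure hv)
  refine ⟨fun i => ?_, fun i j => ?_, fun i => ?_, ?_, ?_⟩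
  · have := key _ (Or.inl ⟨i, rfl⟩)
    rw [lift_rel1, mul_inv_eq_one, mul_inv_eq_iff_eq_mul] at this
    exact this
  · have := key _ (Or.inr (Or.inl ⟨(i, j), rfl⟩))
    rwa [lift_rel2, mul_inv_eq_one] at this
  · have := key _ (Or.inr (Or.inr (Or.inl ⟨i, rfl⟩)))
    rw [lift_rel3, mul_eq_one_iff_eq_inv, mul_inv_eq_iff_eq_mul] at this
    exact this
  · have := key _ (Or.inr (Or.inr (Or.inr (Or.inl rfl))))
    rwa [lift_rel4, mul_inv_eq_one] at this
  · have := key _ (Or.inr (Or.inr (Or.inr (Or.inr rfl))))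
    rwa [lift_rel5, mul_inv_eq_one] at this

lemma closure_gg : Subgroup.closure (Set.range gg) = ⊤ := PresentedGroup.closure_range_of _

end hom

/-- finite presentation -/
theorem fp : Group.IsFinitelyPresented GG := by
  obtain ⟨e⟩ : Nonempty (Gen ≃ Fin (Fintype.card Gen)) := ⟨Fintype.equivFin Gen⟩
  refine ⟨Fintype.card Gen, (PresentedGroup.mk rels).comp
    (FreeGroup.freeGroupCongr e.symm).toMonoidHom, ?_, ?_⟩
  · exact (QuotientGroup.mk'_surjective _).comp (MulEquiv.surjective _)
  · have h1 : (PresentedGroup.mk rels).ker.IsFinitelyNormallyGenerated :=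
      ⟨rels, rels_finite, (QuotientGroup.ker_mk' _).symm⟩
    rw [← MonoidHom.comap_ker]
    exact h1.comap (MulEquiv.surjective _) (by
      have : (FreeGroup.freeGroupCongr e.symm).toMonoidHom.ker = ⊥ :=
        (MonoidHom.ker_eq_bot_iff _).2 (MulEquiv.injective _)
      rw [this]
      exact Subgroup.IsFinitelyNormallyGenerated.bot)

/-! ### the vertex group -/

/-- `Q * ⟨b⟩ → G` -/
def jN : NN →* GG := Coprod.lift (fromQ gg_sys.h1) (zpowersHom GG (gg .b))

/-- `F → G` -/
def jF : FreeGroup (Fin 4) →* GG := FreeGroup.lift fun i => gg (.x i)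

lemma jN_q (i : Fin 4) : jN (Coprod.inl (xq i)) = gg (.q i) := fromQ_x gg_sys.h1 i

lemma jN_b : jN nb = gg .b := by
  unfold jN nb
  rw [Coprod.lift_apply_inr]; simp

lemma Q_ext {M : Type*} [Group M] {f g : Q →* M} (h : ∀ i, f (xq i) = g (xq i)) : f = g :=
  PresentedGroup.ext h

lemma jF_of (i : Fin 4) : jF (FreeGroup.of i) = gg (.x i) := by
  unfold jF; rw [FreeGroup.lift_apply_of]

lemma jcomp (g : FreeGroup (Fin 4)) : ∀ n : NN, jN (alpha (pr g) n) = jF g * jN n * (jF g)⁻¹ := by
  induction g using FreeGroup.induction_on with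
  | C1 => intro n; rw [map_one, alpha_one, map_one]; simp
  | of i =>
    have h1 : jN.comp (alpha (xq i)) = (MulAut.conj (gg (.x i))).toMonoidHom.comp jN := by
      apply NN_ext
      · intro q
        have h2 : jN.comp Coprod.inl = ((MulAut.conj (gg (.x i))).toMonoidHom.comp jN).comp
            Coprod.inl := by
          apply Q_ext
          intro j
          show jN (Coprod.inl (xq j)) = gg (.x i) * jN (Coprod.inl (xq j)) * (gg (.x i))⁻¹
          rw [jN_q, gg_sys.h2]
        exact DFunLike.congr_fun h2 q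
      · show jN (alpha (xq i) nb) = gg (.x i) * jN nb * (gg (.x i))⁻¹
        rw [alpha_nb, map_mul, map_inv, map_inv, jN_q, jN_b, gg_sys.h3]
    intro n
    rw [jF_of]
    exact DFunLike.congr_fun h1 n
  | inv_of i ih =>
    intro n
    have h1 := ih (alpha (pr (FreeGroup.of i)⁻¹) n)
    have h2 : alpha (pr (FreeGroup.of i)) (alpha (pr (FreeGroup.of i)⁻¹) n) = n := by
      rw [← MonoidHom.comp_apply, ← alpha_mul, ← map_mul, mul_inv_cancel, map_one, alpha_one]
      rfl
    rw [h2] at h1
    rw [h1, map_inv jF]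
    group
  | mul x y hx hy =>
    intro n
    rw [map_mul, alpha_mul, MonoidHom.comp_apply, hx, hy, map_mul]
    group

/-- the vertex group in `G` -/
def jA : AA →* GG := SemidirectProduct.lift jN jF (by
  intro g
  exact MonoidHom.ext fun n => jcomp g n)

lemma jA_inl (n : NN) : jA (SemidirectProduct.inl n) = jN n := SemidirectProduct.lift_inl _ _ _ _

lemma jA_inr (f : FreeGroup (Fin 4)) : jA (SemidirectProduct.inr f) = jF f :=
  SemidirectProduct.lift_inr _ _ _ _

lemma jA_ab : jA ab = gg .b := by rw [ab, jA_inl, jN_b]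

lemma jA_ar : jA ar = FreeGroup.lift (fun i => gg (.x i)) (hrel 0) := by
  rw [ar, ax, jA_inr]; rfl

lemma w_b : Commute (gg .w) (gg .b) := mul_inv_eq_iff_eq_mul.1 gg_sys.h4

lemma w_r : Commute (gg .w) (jA ar) := by
  rw [jA_ar]
  exact mul_inv_eq_iff_eq_mul.1 gg_sys.h5

lemma w_phA (z : ZZ) : Commute (jA (phA z)) (gg .w) := by
  rw [phA_apply, map_mul, map_zpow, map_zpow, jA_ab]
  exact ((w_b.symm.zpow_left _).mul_left (w_r.symm.zpow_left _))

/-- the group `⟨b, r, w⟩` -/
abbrev WW : Type := ZZ × Multiplicative ℤ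

/-- its map to `G` -/
def jW : WW →* GG := MonoidHom.noncommCoprod (jA.comp phA) (zpowersHom GG (gg .w))
  (fun z _ => (w_phA z).zpow_right _)

lemma jW_z (z : ZZ) : jW (z, 1) = jA (phA z) := by
  show jA (phA z) * (zpowersHom GG (gg .w)) 1 = _
  rw [map_one, mul_one]

lemma jW_w : jW (1, ofAdd 1) = gg .w := by
  show jA (phA 1) * (zpowersHom GG (gg .w)) (ofAdd 1) = _
  rw [map_one, map_one, one_mul]
  simp

/-- the two vertex groups -/
def HH : Bool → Type
  | false => AA
  | true => WW

instance : ∀ i, Group (HH i)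
  | false => inferInstanceAs (Group AA)
  | true => inferInstanceAs (Group WW)

/-- the embeddings of the edge group -/
def ph : ∀ i, ZZ →* HH i
  | false => phA
  | true => MonoidHom.inl ZZ (Multiplicative ℤ)

/-- the maps to `G` -/
def jj : ∀ i, HH i →* GG
  | false => jA
  | true => jW

lemma hjj (z : ZZ) : jj false (ph false z) = jj true (ph true z) := (jW_z z).symm

lemma hph : ∀ i, Function.Injective (ph i)
  | false => phA_injective
  | true => fun _ _ h => congrArg Prod.fst h

/-- the map of `A` to the amalgam -/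
def oA : AA →* PushoutI ph := PushoutI.of (φ := ph) false

/-- the map of `W` to the amalgam -/
def oW : WW →* PushoutI ph := PushoutI.of (φ := ph) true

lemma oA_phA (z : ZZ) : oA (phA z) = oW (z, 1) :=
  (PushoutI.of_apply_eq_base ph false z).trans (PushoutI.of_apply_eq_base ph true z).symm

/-- the images of the generators in the amalgam -/
def thy : Gen → PushoutI ph
  | .q i => oA (aq (xq i))
  | .x i => oA (ax (FreeGroup.of i))
  | .b => oA ab
  | .w => oW (1, ofAdd 1)

lemma ab_eq : ab = phA (ofAdd 1, 1) := by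
  rw [phA_apply]; simp

lemma ar_eq : ar = phA (1, ofAdd 1) := by
  rw [phA_apply]; simp

lemma thy_x (v : FreeGroup (Fin 4)) : FreeGroup.lift (fun i => thy (.x i)) v = oA (ax v) := by
  have : FreeGroup.lift (fun i => thy (.x i)) = oA.comp SemidirectProduct.inr := by
    ext i; simp only [FreeGroup.lift_apply_of]; rfl
  exact DFunLike.congr_fun this v

lemma thy_sys : Sys thy := by
  have hw : ∀ z : ZZ, oW (1, ofAdd 1) * oA (phA z) * (oW (1, ofAdd 1))⁻¹ = oA (phA z) := by
    intro z
    rw [oA_phA, ← map_mul, ← map_inv, ← map_mul]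
    congr 1
    rw [mul_comm, inv_mul_cancel_left]
  refine ⟨fun i => ?_, fun i j => ?_, fun i => ?_, ?_, ?_⟩
  · show oA (aq (xq (i + 1))) * oA (aq (xq i)) * (oA (aq (xq (i + 1))))⁻¹ =
      oA (aq (xq i)) * oA (aq (xq i))
    rw [← map_mul, ← map_inv, ← map_mul, ← map_mul, ← aq_mul, ← aq_inv, ← aq_mul, ← aq_mul,
      xq_rel i]
  · show oA (ax _) * oA (aq _) * (oA (ax _))⁻¹ = oA (aq _)
    rw [← map_mul, ← map_inv, ← map_mul, ax_aq]
  · show oA (ax _) * oA ab * (oA (ax _))⁻¹ = (oA (aq _))⁻¹ * oA ab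
    rw [← map_mul, ← map_inv, ← map_mul, ax_ab, map_mul, map_inv]
    rfl
  · show oW (1, ofAdd 1) * oA ab * (oW (1, ofAdd 1))⁻¹ = oA ab
    rw [ab_eq]; exact hw _
  · rw [thy_x]
    show oW (1, ofAdd 1) * oA ar * (oW (1, ofAdd 1))⁻¹ = oA ar
    rw [ar_eq]; exact hw _

/-- the map of `G` to the amalgam -/
def th : GG →* PushoutI ph := toM thy_sys

lemma th_jA : ∀ a : AA, th (jA a) = oA a := by
  have : th.comp jA = oA := by
    apply SemidirectProduct.hom_ext
    · apply NN_ext
      · intro q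
        have h2 : (th.comp jN).comp Coprod.inl = (oA.comp SemidirectProduct.inl).comp
            (Coprod.inl : Q →* NN) := by
          apply Q_ext
          intro j
          show th (jN (Coprod.inl (xq j))) = oA (aq (xq j))
          rw [jN_q]
          exact toM_gg thy_sys _
        have h3 := DFunLike.congr_fun h2 q
        show th (jA (SemidirectProduct.inl (Coprod.inl q))) = _
        rw [jA_inl]
        exact h3
      · show th (jA (SemidirectProduct.inl nb)) = _
        rw [jA_inl, jN_b]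
        exact toM_gg thy_sys _
    · ext i
      show th (jA (SemidirectProduct.inr (FreeGroup.of i))) = _
      rw [jA_inr, jF_of]
      exact toM_gg thy_sys _
  exact fun a => DFunLike.congr_fun this a

lemma th_jW : ∀ a : WW, th (jW a) = oW a := by
  rintro ⟨z, t⟩
  have e : ((z, t) : WW) = (z, 1) * (1, ofAdd 1) ^ t.toAdd := by
    ext <;> simp
  rw [e, map_mul, map_mul, map_mul, map_zpow, map_zpow, map_zpow, jW_z, jW_w, th_jA, oA_phA]
  congr 2

lemma hth : ∀ i (h : HH i), th (jj i h) = PushoutI.of (φ := ph) i h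
  | false => th_jA
  | true => th_jW

/-- the two vertex subgroups `A`, `W` -/
def CC : Bool → Subgroup GG := fun i => (jj i).range

theorem CC_nf : NF CC := nf_push ph jj hjj th hth hph

lemma jA_injective : Function.Injective jA := by
  intro a b h
  have h1 := congrArg th h
  rw [th_jA, th_jA] at h1
  exact PushoutI.of_injective (φ := ph) hph false h1

lemma CC_inter {x : GG} (h0 : x ∈ CC false) (h1 : x ∈ CC true) : ∃ z, x = jA (phA z) :=
  inter_push ph jj th hth hph h0 h1

lemma CC_mem (z : ZZ) : jA (phA z) ∈ CC false ⊓ CC true :=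
  ⟨⟨phA z, rfl⟩, ⟨(z, 1), jW_z z⟩⟩

lemma CC_top : CC false ⊔ CC true = ⊤ := by
  rw [eq_top_iff, ← closure_gg, Subgroup.closure_le]
  rintro _ ⟨g, rfl⟩
  cases g with
  | q i => exact (le_sup_left : CC false ≤ _) ⟨aq (xq i), (jA_inl _).trans (jN_q i)⟩
  | x i => exact (le_sup_left : CC false ≤ _) ⟨ax (FreeGroup.of i), (jA_inr _).trans (jF_of i)⟩
  | b => exact (le_sup_left : CC false ≤ _) ⟨ab, jA_ab⟩
  | w => exact (le_sup_right : CC true ≤ _) ⟨(1, ofAdd 1), jW_w⟩

end Pool.Agent.H346.AT
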