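import Pool.Agent.H346.FA.Ext

set_option autoImplicit false

/-!
# Higman's group: infinite, without proper subgroups of finite index
-/

namespace Pool.Agent.H346.AT

open FreeGroup Pool.Agent.H346.FA

/-- the relators of Higman's group -/
def hrel (i : Fin 4) : FreeGroup (Fin 4) :=
  of (i + 1) * of i * (of (i + 1))⁻¹ * (of i)⁻¹ * (of i)⁻¹

/-- Higman's group -/
abbrev Q : Type := PresentedGroup (Set.range hrel)

/-- the projection -/
def pr : FreeGroup (Fin 4) →* Q := PresentedGroup.mk (Set.range hrel)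

lemma pr_surj : Function.Surjective pr := QuotientGroup.mk'_surjective _

/-- the generators -/
def xq (i : Fin 4) : Q := pr (of i)

section rel

variable {M : Type*} [Group M] (y : Fin 4 → M)

/-- the defining relations -/
def HRel : Prop := ∀ i, y (i + 1) * y i * (y (i + 1))⁻¹ = y i * y i

variable {y}

lemma HRel.lift (h : HRel y) (i : Fin 4) : FreeGroup.lift y (hrel i) = 1 := by
  simp only [hrel, _root_.map_mul, _root_.map_inv, lift_apply_of]
  rw [h i]; group

lemma hrel_one (i : Fin 4) : pr (hrel i) = 1 :=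
  PresentedGroup.mk_eq_one_iff.2 (Subgroup.subset_normalClosure ⟨i, rfl⟩)

lemma xq_rel : HRel xq := by
  intro i
  have := hrel_one i
  simp only [hrel, _root_.map_mul, _root_.map_inv] at this
  have h2 : xq (i + 1) * xq i * (xq (i + 1))⁻¹ * (xq i)⁻¹ * (xq i)⁻¹ = 1 := this
  rw [mul_inv_eq_one, mul_inv_eq_iff_eq_mul] at h2
  exact h2

/-- the homomorphism from Higman's group -/
def fromQ (h : HRel y) : Q →* M :=
  PresentedGroup.toGroup (f := y) (by rintro _ ⟨i, rfl⟩; exact h.lift i)

lemma fromQ_x (h : HRel y) (i : Fin 4) : fromQ h (xq i) = y i :=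
  PresentedGroup.toGroup.of _

lemma hconj (h : HRel y) (i : Fin 4) (n : ℕ) :
    y (i + 1) ^ n * y i * (y (i + 1) ^ n)⁻¹ = y i ^ (2 ^ n) := by
  induction n with
  | zero => simp
  | succ n ih =>
    have e : y (i + 1) ^ (n + 1) * y i * (y (i + 1) ^ (n + 1))⁻¹ =
        y (i + 1) * (y (i + 1) ^ n * y i * (y (i + 1) ^ n)⁻¹) * (y (i + 1))⁻¹ := by
      rw [pow_succ']; group
    rw [e, ih, ← conj_pow, h i, ← pow_two, ← pow_mul, pow_succ, Nat.mul_comm]

lemma ord_dvd (h : HRel y) (i : Fin 4) :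
    orderOf (y i) ∣ 2 ^ orderOf (y (i + 1)) - 1 := by
  apply orderOf_dvd_of_pow_eq_one
  have h1 := hconj h i (orderOf (y (i + 1)))
  rw [pow_orderOf_eq_one] at h1
  have h2 : y i ^ (2 ^ orderOf (y (i + 1)) - 1) * y i = y i := by
    rw [← pow_succ, Nat.sub_add_cancel Nat.one_le_two_pow, ← h1]; group
  simpa using h2

lemma ord_pos (h : HRel y) (i : Fin 4) (hi : 0 < orderOf (y (i + 1))) : 0 < orderOf (y i) := by
  have h1 := ord_dvd h i
  rcases Nat.eq_zero_or_pos (orderOf (y i)) with h0 | h0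
  · rw [h0, zero_dvd_iff] at h1
    have : 2 ≤ 2 ^ orderOf (y (i + 1)) := by
      calc 2 = 2 ^ 1 := rfl
        _ ≤ _ := Nat.pow_le_pow_right (by norm_num) hi
    omega
  · exact h0

lemma ord_pos_all (h : HRel y) (i : Fin 4) (hi : 0 < orderOf (y i)) (j : Fin 4) :
    0 < orderOf (y j) := by
  have step : ∀ i, 0 < orderOf (y (i + 1)) → 0 < orderOf (y i) := fun i => ord_pos h i
  have e : ∀ i : Fin 4, ∀ j : Fin 4, j = i ∨ j + 1 = i ∨ j + 1 + 1 = i ∨ j + 1 + 1 + 1 = i := by
    decide
  rcases e i j with h | h | h | h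
  · rw [h]; exact hi
  · exact step _ (by rw [h]; exact hi)
  · exact step _ (step _ (by rw [h]; exact hi))
  · exact step _ (step _ (step _ (by rw [h]; exact hi)))

lemma all_one (h : HRel y) (i : Fin 4) (hi : 0 < orderOf (y i)) : ∀ j, y j = 1 := by
  by_contra hcon
  push Not at hcon
  obtain ⟨j, hj⟩ := hcon
  have hpos := ord_pos_all h i hi
  have hex : ∃ p : ℕ, p.Prime ∧ ∃ i, p ∣ orderOf (y i) := by
    refine ⟨(orderOf (y j)).minFac, Nat.minFac_prime ?_, j, Nat.minFac_dvd _⟩
    rwa [ne_eq, orderOf_eq_one_iff]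
  classical
  obtain ⟨hp, i, hpi⟩ := Nat.find_spec hex
  have hmin : ∀ q : ℕ, q.Prime → (∃ i, q ∣ orderOf (y i)) → Nat.find hex ≤ q :=
    fun q h1 h2 => Nat.find_min' hex ⟨h1, h2⟩
  set p := Nat.find hex with hpdef
  have hpf : Fact p.Prime := ⟨hp⟩
  have h1 : p ∣ 2 ^ orderOf (y (i + 1)) - 1 := hpi.trans (ord_dvd h i)
  have h2 : (2 : ZMod p) ^ orderOf (y (i + 1)) = 1 := by
    have := (ZMod.natCast_eq_zero_iff (2 ^ orderOf (y (i + 1)) - 1) p).2 h1
    rw [Nat.cast_sub Nat.one_le_two_pow, sub_eq_zero] at this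
    simpa using this
  have h3 : orderOf (2 : ZMod p) ∣ orderOf (y (i + 1)) := orderOf_dvd_of_pow_eq_one h2
  have h20 : (2 : ZMod p) ≠ 0 := by
    intro h0
    rw [h0, zero_pow (hpos (i + 1)).ne'] at h2
    exact zero_ne_one h2
  have h4 : orderOf (2 : ZMod p) ∣ p - 1 := by
    apply orderOf_dvd_of_pow_eq_one
    exact ZMod.pow_card_sub_one_eq_one h20
  have h5 : orderOf (2 : ZMod p) ≠ 1 := by
    rw [ne_eq, orderOf_eq_one_iff]
    intro h
    have : (1 : ZMod p) = 0 := by
      have h' : (1 : ZMod p) + 1 = 1 := by rw [one_add_one_eq_two]; exact h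
      exact left_eq_add.1 h'.symm
    exact one_ne_zero this
  have h6 := hmin _ (Nat.minFac_prime h5) ⟨i + 1, (Nat.minFac_dvd _).trans h3⟩
  have h7 := Nat.le_of_dvd (by have := hp.two_le; omega) ((Nat.minFac_dvd _).trans h4)
  have := hp.two_le
  omega

end rel

lemma closure_xq : Subgroup.closure (Set.range xq) = ⊤ := by
  have h1 : Set.range xq = pr '' Set.range of := by
    rw [← Set.range_comp]; rfl
  rw [h1, ← MonoidHom.map_closure, FreeGroup.closure_range_of, ← MonoidHom.range_eq_map]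
  exact MonoidHom.range_eq_top.2 pr_surj

/-- Higman's group has no proper subgroup of finite index -/
theorem Q_finiteIndex (H : Subgroup Q) (hH : H.FiniteIndex) : H = ⊤ := by
  have h1 : H.normalCore.FiniteIndex := inferInstance
  have h2 : HRel (fun i => (QuotientGroup.mk' H.normalCore) (xq i)) := by
    intro i
    simp only [← _root_.map_mul, ← _root_.map_inv, xq_rel i]
  have hf : Finite (Q ⧸ H.normalCore) := inferInstance
  have h3 := all_one h2 0 (orderOf_pos _)
  rw [eq_top_iff, ← closure_xq, Subgroup.closure_le]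
  rintro _ ⟨i, rfl⟩
  have h4 := h3 i
  rw [QuotientGroup.mk'_apply, QuotientGroup.eq_one_iff] at h4
  exact H.normalCore_le h4

lemma double_injective : Function.Injective
    (lift (fun _ : Unit => of () * of ()) : FreeGroup Unit →* FreeGroup Unit) := by
  rw [injective_iff_map_eq_one]
  intro g hg
  obtain ⟨n, rfl⟩ : ∃ n : ℤ, g = of () ^ n := by
    have : g ∈ Subgroup.closure (Set.range (of : Unit → FreeGroup Unit)) := by
      rw [FreeGroup.closure_range_of]; trivial
    have h2 : Set.range (of : Unit → FreeGroup Unit) = {of ()} := by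
      ext x
      constructor
      · rintro ⟨⟨⟩, rfl⟩; rfl
      · rintro rfl; exact ⟨(), rfl⟩
    rw [h2, Subgroup.mem_closure_singleton] at this
    obtain ⟨n, hn⟩ := this
    exact ⟨n, hn.symm⟩
  rw [map_zpow, lift_apply_of, ← pow_two, ← zpow_natCast, ← zpow_mul] at hg
  have h3 : (FreeGroup.lift (fun _ : Unit => Multiplicative.ofAdd (1 : ℤ)))
      (of () ^ (((2 : ℕ) : ℤ) * n)) = 1 := by rw [hg, _root_.map_one]
  rw [map_zpow, lift_apply_of, ← ofAdd_zsmul, ofAdd_eq_one] at h3
  have : n = 0 := by simpa using h3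
  rw [this, zpow_zero]

/-- a nontrivial representation -/
theorem exists_rep : ∃ (M : Type) (_ : Group M) (y : Fin 4 → M), HRel y ∧ y 0 ≠ 1 := by
  obtain ⟨E, _, _, a, z, d, h1, h2, h3⟩ := gam (T := Unit) (fun _ _ => of () * of ())
    (fun _ _ => of () * of ()) (fun _ => double_injective) (fun _ => double_injective)
  have h3' : Function.Injective (lift (Sum.elim z a) : FreeGroup (Unit ⊕ Unit) →* E) := by
    have e : (lift (Sum.elim z a) : FreeGroup (Unit ⊕ Unit) →* E) = (lift (Sum.elim a z)).comp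
        (FreeGroup.map Sum.swap) := by
      ext1 x; cases x <;> simp
    rw [e]
    exact h3.comp (FreeGroup.map_injective Sum.swap_leftInverse.injective)
  obtain ⟨σ, hσ, hσ'⟩ := extend ((good_lm (K := E)).comp (lift (Sum.elim a z)) h3)
    (lift (Sum.elim z a)) h3'
  have e0 : σ (z ()) = lm E (a ()) := by
    have := hσ' (of (Sum.inl ()))
    simpa using this
  have e2 : σ (a ()) = lm E (z ()) := by
    have := hσ' (of (Sum.inr ()))
    simpa using this
  have r1 : d () * a () * (d ())⁻¹ = a () * a () := by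
    have := h2 () ()
    simpa using this
  have r2 : z () * d () * (z ())⁻¹ = d () * d () := by
    have := h1 () ()
    simpa using this
  refine ⟨Equiv.Perm (E × ℕ), inferInstance,
    ![lm E (a ()), lm E (d ()), lm E (z ()), σ (d ())], ?_, ?_⟩
  · intro i
    fin_cases i
    · show lm E (d ()) * lm E (a ()) * (lm E (d ()))⁻¹ = lm E (a ()) * lm E (a ())
      rw [← _root_.map_mul, ← _root_.map_inv, ← _root_.map_mul, r1, _root_.map_mul]
    · show lm E (z ()) * lm E (d ()) * (lm E (z ()))⁻¹ = lm E (d ()) * lm E (d ())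
      rw [← _root_.map_mul, ← _root_.map_inv, ← _root_.map_mul, r2, _root_.map_mul]
    · show σ (d ()) * lm E (z ()) * (σ (d ()))⁻¹ = lm E (z ()) * lm E (z ())
      rw [← e2, ← _root_.map_mul, ← _root_.map_inv, ← _root_.map_mul, r1, _root_.map_mul]
    · show lm E (a ()) * σ (d ()) * (lm E (a ()))⁻¹ = σ (d ()) * σ (d ())
      rw [← e0, ← _root_.map_mul, ← _root_.map_inv, ← _root_.map_mul, r2, _root_.map_mul]
  · show lm E (a ()) ≠ 1
    intro h
    have h4 : a () = 1 := (good_lm (K := E)).injective (by rw [h, _root_.map_one])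
    have h5 : (lift (Sum.elim a z) : FreeGroup (Unit ⊕ Unit) →* E) (of (Sum.inl ())) = 1 := by
      simp [h4]
    have h6 : (of (Sum.inl ()) : FreeGroup (Unit ⊕ Unit)) = 1 := h3 (by rw [h5, _root_.map_one])
    exact FreeGroup.of_ne_one _ h6

/-- the generators of Higman's group have infinite order -/
theorem xq_order (i : Fin 4) : orderOf (xq i) = 0 := by
  by_contra h
  obtain ⟨M, _, y, hy, hy0⟩ := exists_rep
  have h1 := all_one xq_rel i (Nat.pos_of_ne_zero h) 0
  apply hy0
  rw [← fromQ_x hy, h1, _root_.map_one]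

end Pool.Agent.H346.AT
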