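import Pool.Agent.H346.AT.Tree
import Pool.Agent.H346.AT.Ref

set_option autoImplicit false

/-!
# The Bass-Serre action is non-elementary
-/

namespace Pool.Agent.H346.AT

open SimpleGraph

variable {G : Type*} [Group G] {D : Bool → Subgroup G}

lemma bs_no_fixed (h : ∀ i, ∃ g, g ∉ D i) : ¬ ∃ v, ∀ g, bsAct D g v = v := by
  rintro ⟨v, hv⟩
  obtain ⟨i, x, rfl⟩ := exists_bv v
  obtain ⟨g, hg⟩ := h i
  have := hv (x * g * x⁻¹)
  rw [bsAct_fix] at this
  apply hg
  have e : x⁻¹ * (x * g * x⁻¹) * x = g := by group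
  rwa [e] at this

lemma bs_no_line (hT : (bsGraph D).IsTree) (a : Fin 3 → G) (ha : ∀ k, a k ∈ D false)
    (hne : ∀ k l, k ≠ l → (a k)⁻¹ * a l ∉ D true) :
    ¬ ∃ γ : ℤ → BV D, (∀ i j, (bsGraph D).dist (γ i) (γ j) = (i - j).natAbs) ∧
      ∀ g i, ∃ j, bsAct D g (γ i) = γ j := by
  rintro ⟨γ, h1, h2⟩
  have hadj : ∀ n, (bsGraph D).Adj (γ n) (γ (n + 1)) := by
    intro n
    rw [← dist_eq_one_iff_adj, h1]
    simp
  obtain ⟨n, hn⟩ : ∃ n, (γ n).1 = false := by
    by_cases h0 : (γ 0).1 = false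
    · exact ⟨0, h0⟩
    · refine ⟨1, ?_⟩
      obtain ⟨i, x, e1, e2⟩ := hadj 0
      rw [zero_add] at e2
      rw [e2]
      rw [e1] at h0
      revert h0
      cases i <;> simp [bv]
  obtain ⟨g, e1, e2⟩ := adj_cases (hadj n) (Or.inl hn)
  have key : ∀ k, bv D true (g * a k) = γ (n + 1) ∨ bv D true (g * a k) = γ (n - 1) := by
    intro k
    obtain ⟨j, hj⟩ := h2 (g * a k * g⁻¹) (n + 1)
    have f1 : bsAct D (g * a k * g⁻¹) (γ n) = γ n := by
      rw [e1, bsAct_fix]
      have e : g⁻¹ * (g * a k * g⁻¹) * g = a k := by group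
      rw [e]; exact ha k
    have f2 := dist_act (bsAct D) bs_adj_act hT (g * a k * g⁻¹) (γ n) (γ (n + 1))
    rw [f1, hj, h1, h1] at f2
    have f3 : bv D true (g * a k) = γ j := by
      rw [← hj, e2, bsAct_bv]
      congr 1; group
    rw [f3]
    have : j = n + 1 ∨ j = n - 1 := by omega
    rcases this with rfl | rfl
    · exact Or.inl rfl
    · exact Or.inr rfl
  have hcon : ∀ k l, k ≠ l → ∀ v, bv D true (g * a k) = v → bv D true (g * a l) ≠ v := by
    intro k l hkl v h1 h2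
    have := h1.trans h2.symm
    rw [bv_eq] at this
    apply hne k l hkl
    have e : (g * a k)⁻¹ * (g * a l) = (a k)⁻¹ * a l := by group
    rwa [e] at this
  have d01 : (0 : Fin 3) ≠ 1 := by decide
  have d02 : (0 : Fin 3) ≠ 2 := by decide
  have d12 : (1 : Fin 3) ≠ 2 := by decide
  rcases key 0 with h | h <;> rcases key 1 with h' | h' <;> rcases key 2 with h'' | h''
  all_goals first
    | exact hcon _ _ d01 _ h h'
    | exact hcon _ _ d02 _ h h''
    | exact hcon _ _ d12 _ h' h''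

end Pool.Agent.H346.AT
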