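import Pool.Agent.H346.AT.Grp
import Pool.Agent.H346.AT.Non
import Pool.Agent.H346.AT.Ell
import Pool.Agent.H346.AT.Fg

set_option autoImplicit false

/-!
# The two main theorems
-/

namespace Pool.Agent.H346.AT

open Monoid Multiplicative SimpleGraph

/-- the subgroup `B` -/
def BB : Subgroup GG := ((pr.comp SemidirectProduct.rightHom : AA →* Q).ker).map jA

lemma mem_BB {a : AA} : jA a ∈ BB ↔ pr a.right = 1 := by
  constructor
  · rintro ⟨a', h1, h2⟩
    rw [← jA_injective h2]; exact h1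
  · intro h
    exact ⟨a, h, rfl⟩

lemma BB_le : BB ≤ CC false := by
  rintro _ ⟨a, -, rfl⟩
  exact ⟨a, rfl⟩

lemma Z_le : CC false ⊓ CC true ≤ BB := by
  rintro x ⟨h0, h1⟩
  obtain ⟨z, rfl⟩ := CC_inter h0 h1
  rw [mem_BB, phA_eq]
  show pr (hrel 0 ^ z.2.toAdd) = 1
  rw [map_zpow, hrel_one, one_zpow]

lemma mem_CC {h : GG} (hh : h ∈ CC false) : ∃ a : AA, h = jA a := by
  obtain ⟨a, rfl⟩ := hh
  exact ⟨a, rfl⟩

lemma conj_Z : ∀ h ∈ CC false, h ∉ BB → ∀ z ∈ CC false ⊓ CC true,
    h⁻¹ * z * h ∈ CC false ⊓ CC true → z = 1 := by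
  rintro h hh hB z ⟨hz0, hz1⟩ ⟨hz2, hz3⟩
  obtain ⟨a, rfl⟩ := mem_CC hh
  obtain ⟨z, rfl⟩ := CC_inter hz0 hz1
  obtain ⟨z', hz'⟩ := CC_inter hz2 hz3
  have h1 : phA z * a = a * phA z' := by
    apply jA_injective
    rw [map_mul, map_mul, ← hz']
    group
  have h2 := phA_conj a (fun h => hB (mem_BB.2 h)) z z' h1
  rw [h2, map_one, map_one]

/-- the vertex groups of the tree -/
def DD : Bool → Subgroup GG := nC CC BB

lemma DD_nf : NF DD := nC_nf CC_nf Z_le BB_le

lemma DD_top : DD false ⊔ DD true = ⊤ := by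
  rw [eq_top_iff, ← CC_top]
  exact sup_le_sup le_rfl le_sup_right

theorem DD_tree : (bsGraph DD).IsTree := bs_isTree DD_nf DD_top

theorem DD_acyl {u v : BV DD} (p : (bsGraph DD).Walk u v) (hp : p.IsPath)
    (hl : 5 ≤ p.length) (g : GG) (hg : ∀ x ∈ p.support, bsAct DD g x = x) : g = 1 :=
  bs_acyl CC_nf Z_le BB_le conj_Z p hp hl g hg

/-- the exponent sum of `w` -/
lemma chw_sys : Sys (fun g : Gen => if g = .w then ofAdd (1 : ℤ) else 1) := by
  refine ⟨fun i => by simp, fun i j => by simp, fun i => by simp, by simp, ?_⟩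
  simp

/-- the exponent sum of `w` -/
def chw : GG →* Multiplicative ℤ := toM chw_sys

lemma chw_jA (a : AA) : chw (jA a) = 1 := by
  have : chw.comp jA = 1 := by
    apply SemidirectProduct.hom_ext
    · apply NN_ext
      · intro q
        have h2 : (chw.comp jN).comp Coprod.inl = 1 := by
          apply Q_ext
          intro j
          show chw (jN (Coprod.inl (xq j))) = 1
          rw [jN_q]
          exact toM_gg chw_sys _
        have h3 := DFunLike.congr_fun h2 q
        show chw (jA (SemidirectProduct.inl (Coprod.inl q))) = _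
        rw [jA_inl]
        exact h3
      · show chw (jA (SemidirectProduct.inl nb)) = _
        rw [jA_inl, jN_b]
        exact toM_gg chw_sys _
    · ext i
      show chw (jA (SemidirectProduct.inr (FreeGroup.of i))) = _
      rw [jA_inr, jF_of]
      exact toM_gg chw_sys _
  exact DFunLike.congr_fun this a

lemma w_not_mem : gg .w ∉ CC false := by
  rintro ⟨a, ha⟩
  have h1 := chw_jA a
  have h2 : chw (gg .w) = ofAdd 1 := toM_gg chw_sys _
  rw [show jA a = gg .w from ha, h2] at h1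
  have h3 := Multiplicative.ofAdd.injective (h1.trans ofAdd_zero.symm)
  exact one_ne_zero h3

lemma xq_fin (i : Fin 4) : ¬ IsOfFinOrder (xq i) := orderOf_eq_zero_iff.1 (xq_order i)

lemma pow_not_mem {n : ℤ} (hn : n ≠ 0) : jA (ax (FreeGroup.of 0) ^ n) ∉ DD true := by
  intro h
  have h1 : jA (ax (FreeGroup.of 0) ^ n) ∈ BB := P_inter CC_nf Z_le BB_le h ⟨_, rfl⟩
  rw [mem_BB] at h1
  have h2 : (ax (FreeGroup.of 0) ^ n).right = FreeGroup.of 0 ^ n := by
    have : SemidirectProduct.rightHom (ax (FreeGroup.of 0) ^ n) = FreeGroup.of 0 ^ n := by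
      rw [map_zpow]; rfl
    exact this
  rw [h2, map_zpow] at h1
  exact xq_fin 0 (isOfFinOrder_iff_zpow_eq_one.2 ⟨n, hn, h1⟩)

theorem DD_no_fixed : ¬ ∃ v, ∀ g, bsAct DD g v = v := by
  apply bs_no_fixed
  intro i
  cases i
  · exact ⟨_, w_not_mem⟩
  · exact ⟨_, pow_not_mem one_ne_zero⟩

theorem DD_no_line : ¬ ∃ γ : ℤ → BV DD, (∀ i j, (bsGraph DD).dist (γ i) (γ j) = (i - j).natAbs) ∧
      ∀ g i, ∃ j, bsAct DD g (γ i) = γ j := by
  refine bs_no_line DD_tree (fun k => jA (ax (FreeGroup.of 0) ^ (k.val : ℤ))) (fun k => ⟨_, rfl⟩) ?_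
  intro k l hkl h
  rw [← map_inv, ← map_mul, ← zpow_neg, ← zpow_add] at h
  refine pow_not_mem ?_ h
  intro h0
  exact hkl (Fin.ext (by omega))

/-! ### arbitrary actions -/

lemma fg_map {G G' : Type*} [Group G] [Group G'] {S : Subgroup G} (h : S.FG) (f : G →* G') :
    (S.map f).FG := by
  classical
  obtain ⟨X, hX⟩ := h
  exact ⟨X.image f, by rw [Finset.coe_image, ← MonoidHom.map_closure, hX]⟩

lemma zz_fg (S : Subgroup GG) (f : ZZ →* GG) (h : S ≤ f.range) : S.FG := by
  let e : Multiplicative (ℤ × ℤ) →* ZZ := (MulEquiv.prodMultiplicative ℤ ℤ).toMonoidHom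
  have he : Function.Surjective e := (MulEquiv.prodMultiplicative ℤ ℤ).surjective
  have h1 : (S.comap (f.comp e)).FG := by
    have h2 : (AddSubgroup.toIntSubmodule
        (AddSubgroup.toSubgroup.symm (S.comap (f.comp e)))).FG := IsNoetherian.noetherian _
    rw [Submodule.fg_iff_addSubgroup_fg, AddSubgroup.toIntSubmodule_toAddSubgroup,
      AddSubgroup.fg_iff_mul_fg] at h2
    exact h2
  have h2 : S = (S.comap (f.comp e)).map (f.comp e) := by
    rw [Subgroup.map_comap_eq, MonoidHom.range_comp, MonoidHom.range_eq_top.2 he,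
      ← MonoidHom.range_eq_map, inf_eq_right.2 h]
  rw [h2]
  exact fg_map h1 _

/-- the retraction to the free group -/
lemma ret_sys : Sys (fun g : Gen => match g with
    | .x i => FreeGroup.of i
    | _ => 1) := by
  refine ⟨fun i => by simp, fun i j => by simp, fun i => by simp, by simp, by simp⟩

/-- the retraction to the free group -/
def ret : GG →* FreeGroup (Fin 4) := toM ret_sys

lemma ret_jA (a : AA) : ret (jA a) = a.right := by
  have : ret.comp jA = SemidirectProduct.rightHom := by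
    apply SemidirectProduct.hom_ext
    · apply NN_ext
      · intro q
        have h2 : (ret.comp jN).comp Coprod.inl = 1 := by
          apply Q_ext
          intro j
          show ret (jN (Coprod.inl (xq j))) = 1
          rw [jN_q]
          exact toM_gg ret_sys _
        have h3 := DFunLike.congr_fun h2 q
        show ret (jA (SemidirectProduct.inl (Coprod.inl q))) = _
        rw [jA_inl]
        exact h3
      · show ret (jA (SemidirectProduct.inl nb)) = _
        rw [jA_inl, jN_b]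
        exact toM_gg ret_sys _
    · ext i
      show ret (jA (SemidirectProduct.inr (FreeGroup.of i))) = _
      rw [jA_inr, jF_of]
      exact toM_gg ret_sys _
  exact DFunLike.congr_fun this a

lemma ab_fin : ¬ IsOfFinOrder (jA ab) := by
  rw [jA_injective.isOfFinOrder_iff, ab_eq, phA_injective.isOfFinOrder_iff,
    isOfFinOrder_iff_zpow_eq_one]
  rintro ⟨n, hn, h⟩
  have := congrArg Prod.fst h
  rw [Prod.pow_fst, ← ofAdd_zsmul] at this
  exact hn (by simpa using Multiplicative.ofAdd.injective this)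

lemma ar_fin : ¬ IsOfFinOrder (jA ar) := by
  rw [jA_injective.isOfFinOrder_iff, ar_eq, phA_injective.isOfFinOrder_iff,
    isOfFinOrder_iff_zpow_eq_one]
  rintro ⟨n, hn, h⟩
  have := congrArg Prod.snd h
  rw [Prod.pow_snd, ← ofAdd_zsmul] at this
  exact hn (by simpa using Multiplicative.ofAdd.injective this)

lemma aq_fin (i : Fin 4) : ¬ IsOfFinOrder (jA (aq (xq i))) := by
  rw [jA_injective.isOfFinOrder_iff]
  have h : Function.Injective (SemidirectProduct.inl.comp Coprod.inl : Q →* AA) :=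
    SemidirectProduct.inl_injective.comp Coprod.inl_injective
  have h1 := h.isOfFinOrder_iff (x := xq i)
  intro h2
  exact xq_fin i (h1.1 h2)

theorem main {V : Type*} {T : SimpleGraph V} (ρ : GG →* Equiv.Perm V)
    (hρ : ∀ g u v, T.Adj u v → T.Adj (ρ g u) (ρ g v)) (hT : T.IsTree)
    (hinv : ∀ g u v, T.Adj u v → ¬ (ρ g u = v ∧ ρ g v = u)) (k : ℕ)
    (hac : ∀ x y, k ≤ T.dist x y → {g : GG | ρ g x = x ∧ ρ g y = y}.Finite)
    (hfix : ¬ ∃ v, ∀ g, ρ g v = v) :
    ∃ u v, T.Adj u v ∧ ¬ (St ρ u ⊓ St ρ v).FG := by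
  -- `b` is elliptic
  have cb : ∀ f : FreeGroup (Fin 4), pr f = 1 → Commute (jA ab) (jA (ax f)) := by
    intro f hf
    have h : Commute ab (ax f) := (ax_comm hf nb).symm
    exact h.map jA
  have cr : ∀ n : NN, Commute (jA ar) (jA (SemidirectProduct.inl n)) := by
    intro n
    have h : Commute ar (SemidirectProduct.inl n) := ax_comm (hrel_one 0) n
    exact h.map jA
  obtain ⟨v₁, hv₁⟩ : ∃ v, ρ (jA ab) v = v := by
    refine elliptic ρ hρ hT hinv k hac (jA ab) (jA (ax (hrel 0))) (jA (ax (hrel 2)))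
      (cb _ (hrel_one 0)) (cb _ (hrel_one 2)) ?_
    rw [← map_mul, ← map_mul, ← map_inv, ← map_mul, ← ax_mul, ← ax_mul, ← ax_inv, ← ax_mul,
      infinite_zpowers, jA_injective.isOfFinOrder_iff]
    have h := (SemidirectProduct.inr_injective (φ := aut.comp pr)).isOfFinOrder_iff
      (x := (hrel 2 * hrel 0)⁻¹ * (hrel 0 * hrel 2))
    intro h2
    exact infinite_zpowers.1 comm_infinite (h.1 h2)
  obtain ⟨v₂, hv₂⟩ : ∃ v, ρ (jA ar) v = v := by
    refine elliptic ρ hρ hT hinv k hac (jA ar) (jA (aq (xq 1)))⁻¹ (jA (aq (xq 0)))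
      (cr _).inv_right (cr _) ?_
    have e : (jA (aq (xq 0)) * (jA (aq (xq 1)))⁻¹)⁻¹ * ((jA (aq (xq 1)))⁻¹ * jA (aq (xq 0))) =
        (jA (aq (xq 0)))⁻¹ := by
      rw [← map_inv, ← map_mul, ← map_mul, ← map_inv, ← map_inv, ← map_mul]
      congr 1
      rw [← aq_inv, ← aq_mul, ← aq_mul, ← aq_inv, ← aq_inv, ← aq_mul]
      congr 1
      have h' : xq 1 * xq 0 * (xq 1)⁻¹ = xq 0 * xq 0 := xq_rel 0
      have h2 : (xq 0 * (xq 1)⁻¹)⁻¹ * ((xq 1)⁻¹ * xq 0) =
        (xq 1 * xq 0 * (xq 1)⁻¹)⁻¹ * xq 0 := by group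
      rw [h2, h']; group
    rw [e, infinite_zpowers, isOfFinOrder_inv_iff]
    exact aq_fin 0
  -- centralisers are elliptic
  have cent : ∀ z : GG, ¬ IsOfFinOrder z → (∃ v, ρ z v = v) →
      ∃ v, ∀ h, Commute z h → ρ h v = v := by
    rintro z hz ⟨v, hv⟩
    obtain ⟨u, hu⟩ := fixed_of_normal ρ hρ hT hinv k hac (Subgroup.zpowers z)
      (Subgroup.centralizer {z}) (infinite_zpowers.2 hz) v (by
        rintro _ ⟨n, rfl⟩
        simp only [map_zpow]
        exact Function.IsFixedPt.perm_zpow hv n) (by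
        rintro h hh _ ⟨n, rfl⟩
        have hc : Commute z h := Subgroup.mem_centralizer_iff.1 hh z rfl
        have e : h⁻¹ * z ^ n * h = z ^ n := by
          rw [mul_assoc, (hc.zpow_left n).eq, inv_mul_cancel_left]
        simp only [e]
        exact ⟨n, rfl⟩)
    refine ⟨u, fun h hh => hu h ?_⟩
    rw [Subgroup.mem_centralizer_iff]
    rintro _ rfl
    exact hh
  obtain ⟨u₁, hu₁⟩ := cent _ ab_fin ⟨v₁, hv₁⟩
  obtain ⟨u₂, hu₂⟩ := cent _ ar_fin ⟨v₂, hv₂⟩
  -- the vertex group is elliptic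
  obtain ⟨p, hp⟩ : ∃ p, ∀ a ∈ CC false, ρ a p = p := by
    refine fixed_of_normal ρ hρ hT hinv k hac (pr.ker.map (jA.comp SemidirectProduct.inr))
      (CC false) ?_ u₁ ?_ ?_
    · refine (infinite_zpowers.2 ar_fin).mono ?_
      rintro _ ⟨n, rfl⟩
      refine ⟨hrel 0 ^ n, ?_, ?_⟩
      · show pr (hrel 0 ^ n) = 1
        rw [map_zpow, hrel_one, one_zpow]
      · rw [map_zpow]; rfl
    · rintro _ ⟨f, hf, rfl⟩
      exact hu₁ _ (cb f hf)
    · rintro h hh _ ⟨f, hf, rfl⟩
      obtain ⟨a, rfl⟩ := mem_CC hh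
      refine ⟨a.right⁻¹ * f * a.right, ?_, ?_⟩
      · show pr _ = 1
        have hf' : pr f = 1 := hf
        rw [map_mul, map_mul, map_inv, hf']; simp
      · have hf' : pr f = 1 := hf
        show jA (ax (a.right⁻¹ * f * a.right)) = (jA a)⁻¹ * jA (ax f) * jA a
        rw [← map_inv, ← map_mul, ← map_mul]
        congr 1
        have e : a = SemidirectProduct.inl a.left * ax a.right :=
          (SemidirectProduct.inl_left_mul_inr_right a).symm
        have h1 := ax_comm hf' a.left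
        have h2 : a⁻¹ * ax f * a = (SemidirectProduct.inl a.left * ax a.right)⁻¹ * ax f *
            (SemidirectProduct.inl a.left * ax a.right) := by rw [← e]
        have h3 : (SemidirectProduct.inl a.left * ax a.right)⁻¹ * ax f *
            (SemidirectProduct.inl a.left * ax a.right) = (ax a.right)⁻¹ *
            ((SemidirectProduct.inl a.left)⁻¹ * (ax f * SemidirectProduct.inl a.left)) *
            ax a.right := by group
        rw [h2, h3, h1, ax_mul, ax_mul, ax_inv]
        group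
  -- the median
  obtain ⟨m, hm1, hm2, hm3⟩ := exists_med hT p u₁ u₂
  have hwm : ρ (gg .w) m = m := by
    refine fix_bt ρ hρ hT (hu₁ _ ?_) (hu₂ _ ?_) hm2
    · rw [jA_ab]; exact w_b.symm
    · exact w_r.symm
  have hBm : ∀ b ∈ BB, ρ b m = m := by
    rintro _ ⟨a, ha, rfl⟩
    have ha' : pr a.right = 1 := ha
    have e : a = SemidirectProduct.inl a.left * ax a.right :=
      (SemidirectProduct.inl_left_mul_inr_right a).symm
    have h1 : ρ (jA (SemidirectProduct.inl a.left)) m = m :=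
      fix_bt ρ hρ hT (hp _ ⟨_, rfl⟩) (hu₂ _ (cr _)) hm3
    have h2 : ρ (jA (ax a.right)) m = m :=
      fix_bt ρ hρ hT (hp _ ⟨_, rfl⟩) (hu₁ _ (cb _ ha')) hm1
    rw [e, map_mul, map_mul, Equiv.Perm.mul_apply, h2, h1]
  have hAm : ¬ ∀ a ∈ CC false, ρ a m = m := by
    intro hA
    apply hfix
    refine ⟨m, fun g => ?_⟩
    have h1 : (⊤ : Subgroup GG) ≤ St ρ m := by
      rw [← closure_gg, Subgroup.closure_le]
      rintro _ ⟨g, rfl⟩
      cases g with
      | q i => exact hA _ ⟨aq (xq i), (jA_inl _).trans (jN_q i)⟩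
      | x i => exact hA _ ⟨ax (FreeGroup.of i), (jA_inr _).trans (jF_of i)⟩
      | b => exact hA _ ⟨ab, jA_ab⟩
      | w => exact hwm
    exact h1 (Subgroup.mem_top g)
  obtain ⟨u, v, huv, hAu, hBv, hAv⟩ := exists_edge ρ hρ hT (CC false) BB p m hp BB_le hBm hAm
  refine ⟨u, v, huv, fun hfg => hAv ?_⟩
  set H := St ρ u ⊓ St ρ v with hH
  have hBH : BB ≤ H := fun b hb => ⟨hAu b (BB_le hb), hBv b hb⟩
  -- the action on the other tree
  have hT' : (bsGraph CC).IsTree := bs_isTree CC_nf CC_top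
  have hst : St (bsAct CC) (bv CC false 1) = CC false := by
    ext g
    rw [mem_St, bsAct_fix]; simp
  have hHA : (H ⊓ CC false).FG := by
    rw [← hst]
    refine vertex_fg (bsAct CC) bs_adj_act hT' H hfg (bv CC false 1) fun y hy => ?_
    obtain ⟨g, e1, e2⟩ := adj_cases hy (Or.inl rfl)
    rw [bv_eq] at e1
    refine zz_fg _ ((MulAut.conj g).toMonoidHom.comp (jA.comp phA)) ?_
    rintro x ⟨⟨-, hx1⟩, hx2⟩
    rw [hst] at hx1
    rw [e2] at hx2
    have hx2' : g⁻¹ * x * g ∈ CC true := bsAct_fix.1 hx2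
    have hg : g ∈ CC false := by simpa using e1
    have hx3 : g⁻¹ * x * g ∈ CC false :=
      (CC false).mul_mem ((CC false).mul_mem ((CC false).inv_mem hg) hx1) hg
    obtain ⟨z, hz⟩ := CC_inter hx3 hx2'
    refine ⟨z, ?_⟩
    show g * jA (phA z) * g⁻¹ = x
    rw [← hz]; group
  have hF : (H ⊓ CC false).map ret = ⊤ := by
    refine eq_top_of_fg _ (fg_map hHA ret) ?_
    intro f hf
    refine ⟨jA (ax f), ⟨hBH (mem_BB.2 hf), ⟨_, rfl⟩⟩, ret_jA _⟩
  intro a ha
  obtain ⟨a, rfl⟩ := mem_CC ha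
  obtain ⟨h, ⟨hh1, hh2⟩, hh3⟩ : ret (jA a) ∈ (H ⊓ CC false).map ret := by rw [hF]; trivial
  obtain ⟨h, rfl⟩ := mem_CC hh2
  have h1 : jA (a * h⁻¹) ∈ BB := by
    rw [mem_BB, SemidirectProduct.mul_right, SemidirectProduct.inv_right]
    rw [ret_jA, ret_jA] at hh3
    rw [hh3]; simp
  have h2 := H.mul_mem (hBH h1) hh1
  rw [← map_mul, inv_mul_cancel_right] at h2
  exact h2.2

end Pool.Agent.H346.AT
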