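import Mathlib

set_option autoImplicit false

/-!
# Betweenness and actions in simplicial trees
-/

namespace Pool.Agent.H346.AT

open SimpleGraph

variable {V : Type*} {T : SimpleGraph V}

/-- `m` lies between `p` and `q` -/
def Bt (T : SimpleGraph V) (p m q : V) : Prop := T.dist p m + T.dist m q = T.dist p q

lemma Bt.symm {p m q : V} (h : Bt T p m q) : Bt T q m p := by
  unfold Bt at *
  rw [T.dist_comm (u := q) (v := m), T.dist_comm (u := m) (v := p),
    T.dist_comm (u := q) (v := p)]; omega

lemma bt_left (p q : V) : Bt T p p q := by simp [Bt]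

lemma bt_right (p q : V) : Bt T p q q := by simp [Bt]

section tree

variable (hT : T.IsTree)
include hT

lemma tri (p q r : V) : T.dist p r ≤ T.dist p q + T.dist q r := hT.1.dist_triangle

lemma eq_of_zero {p q : V} (h : T.dist p q = 0) : p = q :=
  (hT.1 p q).dist_eq_zero_iff.1 h

lemma exists_closer {x w : V} (h : x ≠ w) : ∃ y, T.Adj x y ∧ T.dist y w + 1 = T.dist x w := by
  obtain ⟨p, hp⟩ := (hT.1 x w).exists_walk_length_eq_dist
  cases p with
  | nil => exact absurd rfl h
  | cons a q =>
    refine ⟨_, a, ?_⟩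
    have h1 := dist_le q
    have h3 := hT.dist_eq_dist_add_one_of_adj w a
    rw [Walk.length_cons] at hp
    grind [T.dist_comm]

lemma closer_unique {x y y' w : V} (a : T.Adj x y) (a' : T.Adj x y')
    (h : T.dist y w < T.dist x w) (h' : T.dist y' w < T.dist x w) : y = y' := by
  have k : ∀ {y}, T.Adj x y → T.dist y w < T.dist x w → ∃ p : T.Walk x w, p.IsPath ∧ p.snd = y := by
    intro y a h
    obtain ⟨p, hp⟩ := (hT.1 y w).exists_walk_length_eq_dist
    refine ⟨.cons a p, Walk.isPath_of_length_eq_dist _ ?_, by simp⟩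
    have := hT.dist_eq_dist_add_one_of_adj w a
    rw [Walk.length_cons]
    grind [T.dist_comm]
  obtain ⟨p, h1, rfl⟩ := k a h
  obtain ⟨q, h2, rfl⟩ := k a' h'
  rw [(hT.existsUnique_path x w).unique h1 h2]

lemma adj_dist {x y : V} (a : T.Adj x y) (w : V) :
    T.dist x w = T.dist y w + 1 ∨ T.dist y w = T.dist x w + 1 := by
  have := hT.dist_eq_dist_add_one_of_adj w a
  rw [T.dist_comm (u := x), T.dist_comm (u := y)]; omega

/-- if the first step from `x` towards `z` leads away from `w`, then `x` is between -/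
lemma glue (w z : V) : ∀ (n : ℕ) (x y : V), T.dist x z = n → T.Adj x y →
    T.dist y z < T.dist x z → T.dist x w < T.dist y w → Bt T w x z
  | 0, x, y, h, _, k, _ => by omega
  | n + 1, x, y, h, a, k, l => by
    have h1 := adj_dist hT a w
    have h2 := adj_dist hT a z
    unfold Bt
    rw [T.dist_comm (u := w) (v := x), T.dist_comm (u := w) (v := z), T.dist_comm (u := z)]
    rw [T.dist_comm (u := w) (v := z)]
    by_cases e : y = z
    · subst e
      have := @dist_self _ T y
      omega
    obtain ⟨u, b, hu⟩ := exists_closer hT e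
    have h3 := adj_dist hT b w
    have h4 := glue w z n y u (by omega) b (by omega) (lt_of_not_ge fun c => by
      obtain rfl := closer_unique hT b a.symm (w := w) (by omega) l
      omega)
    unfold Bt at h4
    rw [T.dist_comm (u := w) (v := y), T.dist_comm (u := w) (v := z)] at h4
    omega

/-- medians -/
lemma exists_med (x y z : V) : ∃ m, Bt T x m y ∧ Bt T y m z ∧ Bt T x m z := by
  obtain ⟨m, hm, hmin⟩ := (measure (fun m => T.dist m z)).wf.has_min {m | Bt T x m y}
    ⟨x, bt_left x y⟩
  change ∀ y' ∈ _, ¬ T.dist y' z < T.dist m z at hmin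
  have key : ∀ x y : V, Bt T x m y → (∀ y' ∈ {m | Bt T x m y}, ¬ T.dist y' z < T.dist m z) →
      Bt T y m z := by
    intro x y hm hmin
    by_cases e : m = y
    · subst e; exact bt_left _ _
    obtain ⟨n, a, hn⟩ := exists_closer hT e
    have h1 : Bt T x n y := by
      unfold Bt at *
      have t1 := tri hT x n y
      have t2 := tri hT x m n
      have t3 : T.dist m n = 1 := dist_eq_one_iff_adj.2 a
      omega
    have h2 := hmin n h1
    have h3 := adj_dist hT a z
    exact (glue hT z y _ m n rfl a (by omega) (by omega)).symm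
  refine ⟨m, hm, key x y hm hmin, key y x hm.symm ?_⟩
  intro y' hy'
  exact hmin y' (Bt.symm hy')

lemma bt_or {p m q' : V} (h : Bt T p m q') (q : V) : Bt T p m q ∨ Bt T q m q' := by
  by_cases e : m = q
  · subst e; exact Or.inl (bt_right _ _)
  obtain ⟨n, a, hn⟩ := exists_closer hT e
  have h1 := adj_dist hT a p
  have h2 := adj_dist hT a q'
  rcases h1 with h1 | h1
  · right
    have h3 : T.dist m q' < T.dist n q' := by
      unfold Bt at h
      have t1 := tri hT p n q'
      rw [T.dist_comm (u := p) (v := n)] at t1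
      rw [T.dist_comm (u := p) (v := m)] at h
      omega
    exact (glue hT q' q _ m n rfl a (by omega) h3).symm
  · left
    exact glue hT p q _ m n rfl a (by omega) (by omega)

lemma four (p q r s : V) : T.dist p q + T.dist r s ≤
    max (T.dist p r + T.dist q s) (T.dist p s + T.dist q r) := by
  obtain ⟨m, h1, h2, h3⟩ := exists_med hT p q r
  have t := tri hT r m s
  rcases bt_or hT h1 s with h | h
  · apply le_max_of_le_right
    unfold Bt at *
    rw [T.dist_comm (u := r) (v := m)] at t
    rw [T.dist_comm (u := q) (v := m)] at h2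
    omega
  · apply le_max_of_le_left
    unfold Bt at *
    rw [T.dist_comm (u := r) (v := m)] at t
    rw [T.dist_comm (u := s) (v := m), T.dist_comm (u := s) (v := q)] at h
    omega

lemma bt_mono {p m m' q : V} (h : Bt T p m q) (h' : Bt T p m' q) (hle : T.dist p m ≤ T.dist p m') :
    Bt T p m m' := by
  unfold Bt at *
  have h1 := four hT m m' p q
  have c2 := T.dist_comm (u := m) (v := p)
  have c3 := T.dist_comm (u := m') (v := p)
  have h2 := tri hT p m m'
  rcases le_max_iff.1 h1 with h4 | h4 <;> omega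

lemma bt_eq {p m m' q : V} (h : Bt T p m q) (h' : Bt T p m' q) (hle : T.dist p m = T.dist p m') :
    m = m' := by
  have := bt_mono hT h h' hle.le
  unfold Bt at this
  exact eq_of_zero hT (by omega)

lemma exists_pt (p q : V) : ∀ k : ℕ, k ≤ T.dist p q → ∃ m, Bt T p m q ∧ T.dist p m = k := by
  intro k
  induction k with
  | zero => intro _; exact ⟨p, bt_left _ _, by simp⟩
  | succ k ih =>
    intro hk
    obtain ⟨m, h1, h2⟩ := ih (by omega)
    have e : m ≠ q := by
      rintro rfl
      omega
    obtain ⟨n, a, hn⟩ := exists_closer hT e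
    have t1 := tri hT p n q
    have t2 := tri hT p m n
    have t3 : T.dist m n = 1 := dist_eq_one_iff_adj.2 a
    refine ⟨n, ?_, ?_⟩ <;> unfold Bt at * <;> omega

lemma bt_trans_left {p m q n : V} (h : Bt T p m q) (h' : Bt T p n m) : Bt T p n q := by
  unfold Bt at *
  have t1 := tri hT p n q
  have t2 := tri hT n m q
  omega

lemma bt_mid {p m q n : V} (h : Bt T p m q) (h' : Bt T p n m) : Bt T n m q := by
  unfold Bt at *
  have t1 := tri hT p n q
  have t2 := tri hT n m q
  omega

end tree

section act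

variable {G : Type*} [Group G] (ρ : G →* Equiv.Perm V)
  (hρ : ∀ g u v, T.Adj u v → T.Adj (ρ g u) (ρ g v))
include hρ

lemma dist_act (hT : T.IsTree) (g : G) (x y : V) : T.dist (ρ g x) (ρ g y) = T.dist x y := by
  have k : ∀ g x y, T.dist (ρ g x) (ρ g y) ≤ T.dist x y := fun g x y => by
    obtain ⟨p, hp⟩ := (hT.1 x y).exists_walk_length_eq_dist
    simpa [hp] using dist_le (p.map ⟨ρ g, hρ g _ _⟩)
  exact (k g x y).antisymm (by simpa using k g⁻¹ (ρ g x) (ρ g y))

variable (hT : T.IsTree)
include hT

lemma bt_act (g : G) {x y z : V} (h : Bt T x y z) : Bt T (ρ g x) (ρ g y) (ρ g z) := by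
  unfold Bt at *
  simpa only [dist_act ρ hρ hT] using h

/-- an element fixing two vertices fixes the vertices in between -/
lemma fix_bt {g : G} {p m q : V} (hp : ρ g p = p) (hq : ρ g q = q) (h : Bt T p m q) :
    ρ g m = m := by
  have h1 := bt_act ρ hρ hT g h
  rw [hp, hq] at h1
  refine bt_eq hT h1 h ?_
  have := dist_act ρ hρ hT g p m
  rwa [hp] at this

/-- a group acting with a bounded orbit has a fixed vertex -/
lemma fixed_of_bounded (hinv : ∀ g u v, T.Adj u v → ¬ (ρ g u = v ∧ ρ g v = u))
    (H : Subgroup G) (x : V) (N : ℕ) (hN : ∀ h ∈ H, T.dist x (ρ h x) ≤ N) :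
    ∃ v, ∀ h ∈ H, ρ h v = v := by
  classical
  have hex : ∃ n, ∃ v, ∀ h ∈ H, T.dist v (ρ h x) ≤ n := ⟨N, x, hN⟩
  obtain ⟨v, hv⟩ := Nat.find_spec hex
  have hmin : ∀ n w, (∀ h ∈ H, T.dist w (ρ h x) ≤ n) → Nat.find hex ≤ n :=
    fun n w h => Nat.find_min' hex ⟨w, h⟩
  set n := Nat.find hex with hn
  have hM : ∀ w, (∀ h ∈ H, T.dist w (ρ h x) ≤ n) → ∀ g ∈ H, ∀ h ∈ H, T.dist (ρ g w) (ρ h x) ≤ n := by
    intro w hw g hg h hh
    have h1 := hw (g⁻¹ * h) (H.mul_mem (H.inv_mem hg) hh)
    have h2 := dist_act ρ hρ hT g w (ρ (g⁻¹ * h) x)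
    rw [← h2] at h1
    simpa [map_mul, Equiv.Perm.mul_apply] using h1
  have h1 : ∀ w w', (∀ h ∈ H, T.dist w (ρ h x) ≤ n) → (∀ h ∈ H, T.dist w' (ρ h x) ≤ n) →
      T.dist w w' ≤ 1 := by
    intro w w' hw hw'
    by_contra hcon
    obtain ⟨m, hm1, hm2⟩ := exists_pt hT w w' 1 (by omega)
    have hpos : 1 ≤ n := by
      by_contra h0
      have h0 : n = 0 := by omega
      have a1 := hw 1 H.one_mem
      have a2 := hw' 1 H.one_mem
      have e1 : T.dist w (ρ 1 x) = 0 := by omega
      have e2 : T.dist w' (ρ 1 x) = 0 := by omega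
      have e3 := eq_of_zero hT e1
      have e4 := eq_of_zero hT e2
      rw [e3, e4] at hcon
      simp at hcon
    have h2 := hmin (n - 1) m ?_
    · omega
    intro h hh
    have c1 := hw h hh
    have c2 := hw' h hh
    unfold Bt at hm1
    rcases bt_or hT hm1 (ρ h x) with c | c
    · unfold Bt at c
      omega
    · unfold Bt at c
      rw [T.dist_comm (u := ρ h x) (v := m), T.dist_comm (u := ρ h x) (v := w')] at c
      omega
  refine ⟨v, fun h hh => ?_⟩
  by_contra hne
  have hv1 := hM v hv h hh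
  have hv2 := hM _ hv1 h hh
  have d1 : T.dist v (ρ h v) = 1 := by
    have a1 := h1 v (ρ h v) hv hv1
    have a2 : T.dist v (ρ h v) ≠ 0 := fun e => hne (eq_of_zero hT e).symm
    omega
  have d2 : T.dist v (ρ h (ρ h v)) = 1 := by
    have a1 := h1 v (ρ h (ρ h v)) hv hv2
    have a2 : T.dist v (ρ h (ρ h v)) ≠ 0 := fun e =>
      hinv h v (ρ h v) (dist_eq_one_iff_adj.1 d1) ⟨rfl, (eq_of_zero hT e).symm⟩
    omega
  have d3 : T.dist (ρ h v) (ρ h (ρ h v)) = 1 := by
    rw [dist_act ρ hρ hT]; exact d1
  have d4 := adj_dist hT (dist_eq_one_iff_adj.1 d3) v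
  rw [T.dist_comm (v := v), T.dist_comm (v := v)] at d4
  omega

end act

end Pool.Agent.H346.AT
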